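import Mathlib
import Pool.Agent.H31.ZD.Dg

/-!
# Numbers with a digit set for every place: exponential sums
-/

set_option autoImplicit false

open Finset

namespace Pool.Agent.H31.MO

open Pool.Agent.H31.ZD

/-- the numbers `u < b ^ L` whose digit at the place `i` lies in `D i`, for all `i < L` -/
def Dset (b L : ℕ) (D : ℕ → Finset ℕ) : Finset ℕ := (range (b^L)).filter (fun u => ∀ i < L, u / b^i % b ∈ D i)

lemma Dset_mem {b L : ℕ} {D : ℕ → Finset ℕ} {u : ℕ} : u ∈ Dset b L D ↔ u < b^L ∧ ∀ i < L, u / b^i % b ∈ D i := by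
  unfold Dset
  rw [mem_filter, mem_range]

lemma Dset_zero (b : ℕ) (D : ℕ → Finset ℕ) : Dset b 0 D = {0} := by
  ext u
  rw [Dset_mem, mem_singleton]
  simp

/-- sums over the set, the lowest digit split off -/
lemma Dset_succ {b : ℕ} (hb : 2 ≤ b) {D : ℕ → Finset ℕ} (hD : ∀ i, ∀ d ∈ D i, d < b) (L : ℕ) {M : Type*} [AddCommMonoid M] (f : ℕ → M) :
    ∑ u ∈ Dset b (L+1) D, f u = ∑ d ∈ D 0, ∑ v ∈ Dset b L (fun i => D (i+1)), f (d + b * v) := by
  have hbp : 0 < b := by omega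
  rw [← sum_product']
  symm
  refine sum_bij (fun x _ => x.1 + b * x.2) ?_ ?_ ?_ ?_
  · intro x hx
    rw [mem_product, Dset_mem] at hx
    have hd := hD 0 _ hx.1
    have g1 : (x.1 + b * x.2) % b = x.1 := by rw [Nat.add_mul_mod_self_left, Nat.mod_eq_of_lt hd]
    have g2 : (x.1 + b * x.2) / b = x.2 := by
      rw [Nat.add_mul_div_left _ _ hbp, Nat.div_eq_of_lt hd, zero_add]
    rw [Dset_mem]
    refine ⟨?_, ?_⟩
    · have g4 : (x.2 + 1) * b ≤ b^L * b := Nat.mul_le_mul_right _ hx.2.1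
      have g6 : (x.2 + 1) * b = b * x.2 + b := by ring
      rw [pow_succ]
      omega
    · intro i hi
      rcases Nat.eq_zero_or_pos i with rfl | hi0
      · rw [pow_zero, Nat.div_one, g1]; exact hx.1
      · obtain ⟨i', rfl⟩ : ∃ i', i = i' + 1 := ⟨i - 1, by omega⟩
        rw [pow_succ', ← Nat.div_div_eq_div_mul, g2]
        exact hx.2.2 i' (by omega)
  · intro x hx y hy hxy
    rw [mem_product] at hx hy
    have hxd := hD 0 _ hx.1
    have hyd := hD 0 _ hy.1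
    have h1 : (x.1 + b * x.2) % b = (y.1 + b * y.2) % b := by rw [hxy]
    rw [Nat.add_mul_mod_self_left, Nat.add_mul_mod_self_left, Nat.mod_eq_of_lt hxd, Nat.mod_eq_of_lt hyd] at h1
    have h2 : b * x.2 = b * y.2 := by omega
    exact Prod.ext h1 (Nat.eq_of_mul_eq_mul_left hbp h2)
  · intro u hu
    rw [Dset_mem] at hu
    refine ⟨(u % b, u / b), ?_, Nat.mod_add_div u b⟩
    rw [mem_product, Dset_mem]
    refine ⟨by simpa using hu.2 0 (by omega), ?_, ?_⟩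
    · simp only
      rw [Nat.div_lt_iff_lt_mul hbp, ← pow_succ]
      exact hu.1
    · intro i hi
      simp only
      rw [Nat.div_div_eq_div_mul, ← pow_succ']
      exact hu.2 (i + 1) (by omega)
  · intro x _
    rfl

lemma Dset_card {b : ℕ} (hb : 2 ≤ b) (s : ℕ) (L : ℕ) : ∀ (D : ℕ → Finset ℕ), (∀ i, ∀ d ∈ D i, d < b) →
    (∀ i, (D i).card = s) → (Dset b L D).card = s ^ L := by
  induction L with
  | zero => intro D _ _; rw [Dset_zero]; simp
  | succ L ih =>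
    intro D hD hs
    rw [card_eq_sum_ones, Dset_succ hb hD, pow_succ']
    have := ih (fun i => D (i+1)) (fun i => hD _) (fun i => hs _)
    rw [card_eq_sum_ones] at this
    rw [sum_congr rfl (fun d _ => this), sum_const, smul_eq_mul, hs 0]

/-- the exponential sum over the set -/
noncomputable def SD (b : ℕ) (D : ℕ → Finset ℕ) (L : ℕ) (x : ℝ) : ℂ := ∑ u ∈ Dset b L D, ee (u * x)

lemma SD_succ {b : ℕ} (hb : 2 ≤ b) {D : ℕ → Finset ℕ} (hD : ∀ i, ∀ d ∈ D i, d < b) (L : ℕ) (x : ℝ) :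
    SD b D (L+1) x = ph (D 0) x * SD b (fun i => D (i+1)) L (b * x) := by
  unfold SD ph
  rw [Dset_succ hb hD, sum_mul]
  refine sum_congr rfl fun d _ => ?_
  rw [mul_sum]
  refine sum_congr rfl fun v _ => ?_
  rw [← ee_add]
  congr 1
  push_cast
  ring

lemma SD_norm_le {b : ℕ} (hb : 2 ≤ b) {D : ℕ → Finset ℕ} (hD : ∀ i, ∀ d ∈ D i, d < b) {s : ℕ} (hs : ∀ i, (D i).card = s)
    (L : ℕ) (x : ℝ) : ‖SD b D L x‖ ≤ (s : ℝ) ^ L := by
  unfold SD
  refine (norm_sum_le _ _).trans ?_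
  simp [norm_ee, Dset_card hb s L D hD hs]

lemma SD_zero (b : ℕ) (D : ℕ → Finset ℕ) (x : ℝ) : SD b D 0 x = 1 := by
  unfold SD
  rw [Dset_zero]
  simp [ee]

/-- the lowest `K` digits -/
lemma SD_le {b : ℕ} (hb : 2 ≤ b) {s : ℕ} (K : ℕ) : ∀ (D : ℕ → Finset ℕ), (∀ i, ∀ d ∈ D i, d < b) →
    (∀ i, (D i).card = s) → ∀ (L : ℕ) (x : ℝ), K ≤ L →
    ‖SD b D L x‖ ≤ ‖SD b D K x‖ * (s : ℝ) ^ (L - K) := by
  induction K with
  | zero =>
    intro D hD hs L x _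
    rw [SD_zero, norm_one, one_mul, Nat.sub_zero]
    exact SD_norm_le hb hD hs L x
  | succ K ih =>
    intro D hD hs L x hL
    obtain ⟨L', rfl⟩ : ∃ L', L = L' + 1 := ⟨L - 1, by omega⟩
    rw [SD_succ hb hD, SD_succ hb hD, norm_mul, norm_mul, mul_assoc]
    apply mul_le_mul_of_nonneg_left _ (norm_nonneg _)
    have := ih (fun i => D (i+1)) (fun i => hD _) (fun i => hs _) L' (b * x) (by omega)
    rwa [Nat.add_sub_add_right]

/-- the bounds for the `b`-adic intervals -/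
noncomputable def WD (b : ℕ) : (ℕ → ℕ → ℝ) → ℕ → ℕ → ℝ
  | _, 0, _ => 1
  | S, (K+1), j => S 0 (j / b^K) * WD b (fun i => S (i+1)) K (j % b^K)

lemma WD_nonneg {b : ℕ} (hb : 2 ≤ b) (K : ℕ) : ∀ (S : ℕ → ℕ → ℝ), (∀ i, ∀ r < b, 0 ≤ S i r) →
    ∀ j, j < b^K → 0 ≤ WD b S K j := by
  induction K with
  | zero => intro S _ j _; exact zero_le_one
  | succ K ih =>
    intro S hS j hj
    have hbK : 0 < b^K := by positivity
    apply mul_nonneg
    · apply hS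
      rw [Nat.div_lt_iff_lt_mul hbK, ← pow_succ']
      exact hj
    · exact ih _ (fun i => hS _) _ (Nat.mod_lt _ hbK)

lemma WD_sum {b : ℕ} (hb : 2 ≤ b) {B : ℝ} (K : ℕ) : ∀ (S : ℕ → ℕ → ℝ), (∀ i, ∀ r < b, 0 ≤ S i r) →
    (∀ i, ∑ r ∈ range b, S i r ≤ B) → ∑ j ∈ range (b^K), WD b S K j ≤ B ^ K := by
  induction K with
  | zero => intro S _ _; simp [WD]
  | succ K ih =>
    intro S hS hB
    have hbK : 0 < b^K := by positivity
    have h := sum_divmod b (b^K) hbK (S 0) (WD b (fun i => S (i+1)) K)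
    rw [← pow_succ'] at h
    have h2 := ih (fun i => S (i+1)) (fun i => hS _) (fun i => hB _)
    have h3 : 0 ≤ ∑ r ∈ range (b^K), WD b (fun i => S (i+1)) K r :=
      sum_nonneg fun r hr => WD_nonneg hb K _ (fun i => hS _) r (mem_range.mp hr)
    have h4 : 0 ≤ ∑ r ∈ range b, S 0 r := sum_nonneg fun r hr => hS 0 r (mem_range.mp hr)
    calc ∑ j ∈ range (b^(K+1)), WD b S (K+1) j
        = (∑ q ∈ range b, S 0 q) * ∑ r ∈ range (b^K), WD b (fun i => S (i+1)) K r := h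
      _ ≤ B * B^K := mul_le_mul (hB 0) h2 h3 (h4.trans (hB 0))
      _ = B^(K+1) := (pow_succ' B K).symm

/-- the product bound on the `b`-adic intervals -/
lemma SD_WD {b : ℕ} (hb : 2 ≤ b) (K : ℕ) : ∀ (D : ℕ → Finset ℕ), (∀ i, ∀ d ∈ D i, d < b) → ∀ (S : ℕ → ℕ → ℝ),
    (∀ i, ∀ r < b, ∀ x : ℝ, (r:ℝ) / b ≤ x → x ≤ ((r:ℝ) + 1) / b → ‖ph (D i) x‖ ≤ S i r) →
    ∀ x : ℝ, ‖SD b D K x‖ ≤ WD b S K ⌊(b:ℝ)^K * Int.fract x⌋₊ := by
  have hb0 : (0:ℝ) < b := by exact_mod_cast (by omega : 0 < b)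
  induction K with
  | zero => intro D _ S _ x; rw [SD_zero]; simp [WD]
  | succ K ih =>
    intro D hD S hS x
    have hf0 := Int.fract_nonneg x
    have hf1 := Int.fract_lt_one x
    have hbK : 0 < b^K := by positivity
    have hbKr : (0:ℝ) < (b:ℝ)^K := by positivity
    set y := Int.fract x with hy
    set j := ⌊(b:ℝ)^(K+1) * y⌋₊ with hj
    have hj1 : (j:ℝ) ≤ (b:ℝ)^(K+1) * y := Nat.floor_le (by positivity)
    have hj2 : (b:ℝ)^(K+1) * y < j + 1 := Nat.lt_floor_add_one _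
    have hq : j / b^K = ⌊(b:ℝ) * y⌋₊ := by
      have h1 : (b:ℝ) * y = ((b:ℝ)^(K+1) * y) / ((b^K : ℕ) : ℝ) := by
        push_cast
        rw [pow_succ]
        field_simp
      rw [h1, Nat.floor_div_natCast]
    have hq1 : ((⌊(b:ℝ) * y⌋₊ : ℕ) : ℝ) ≤ b * y := Nat.floor_le (by positivity)
    have hq2 : (b:ℝ) * y < (⌊(b:ℝ) * y⌋₊ : ℕ) + 1 := Nat.lt_floor_add_one _
    have hqb : ⌊(b:ℝ) * y⌋₊ < b := by
      have : (b:ℝ) * y < b := by nlinarith
      exact (Nat.floor_lt (by positivity)).mpr this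
    rw [SD_succ hb hD, norm_mul]
    have h1 : ‖ph (D 0) x‖ ≤ S 0 (j / b^K) := by
      rw [hq, ← ph_fract]
      apply hS _ _ hqb
      · rw [div_le_iff₀ hb0]; linarith
      · rw [le_div_iff₀ hb0]; linarith
    have hfr : Int.fract ((b:ℝ) * x) = (b:ℝ) * y - (⌊(b:ℝ) * y⌋₊ : ℕ) := by
      rw [Int.fract_eq_iff]
      refine ⟨by linarith, by linarith, ⟨(b:ℤ) * ⌊x⌋ + (⌊(b:ℝ) * y⌋₊ : ℕ), ?_⟩⟩
      have : x = y + ⌊x⌋ := (Int.fract_add_floor x).symm
      conv_lhs => rw [this]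
      push_cast
      ring
    have h2 : ‖SD b (fun i => D (i+1)) K (b * x)‖ ≤ WD b (fun i => S (i+1)) K (j % b^K) := by
      refine (ih (fun i => D (i+1)) (fun i => hD _) (fun i => S (i+1)) (fun i => hS _) (b * x)).trans (le_of_eq ?_)
      congr 1
      rw [hfr]
      have h3 : (b:ℝ)^K * ((b:ℝ) * y - (⌊(b:ℝ) * y⌋₊ : ℕ)) = (b:ℝ)^(K+1) * y - ((b^K * ⌊(b:ℝ) * y⌋₊ : ℕ) : ℝ) := by
        push_cast; ring
      rw [h3, Nat.floor_sub_natCast, ← hj]
      have := Nat.div_add_mod j (b^K)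
      rw [hq] at this
      have h5 : ∀ r q : ℕ, q + r = j → j - q = r := fun r q h => by omega
      exact h5 _ _ this
    have h0 : 0 ≤ S 0 (j / b^K) := (norm_nonneg _).trans h1
    exact mul_le_mul h1 h2 (norm_nonneg _) h0

/-- **sums over points which are not too dense modulo one** -/
theorem ptsD {b : ℕ} (hb : 2 ≤ b) {D : ℕ → Finset ℕ} (hD : ∀ i, ∀ d ∈ D i, d < b) {S : ℕ → ℕ → ℝ}
    (hS : ∀ i, ∀ r < b, ∀ x : ℝ, (r:ℝ) / b ≤ x → x ≤ ((r:ℝ) + 1) / b → ‖ph (D i) x‖ ≤ S i r)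
    {B : ℝ} (hB : ∀ i, ∑ r ∈ range b, S i r ≤ B) (K : ℕ)
    {ι : Type*} (I : Finset ι) (x : ι → ℝ) (M : ℝ) (hM0 : 0 ≤ M)
    (hM : ∀ j : ℕ, ((I.filter (fun i => ⌊(b:ℝ)^K * Int.fract (x i)⌋₊ = j)).card : ℝ) ≤ M) :
    ∑ i ∈ I, ‖SD b D K (x i)‖ ≤ M * B ^ K := by
  classical
  have hb0 : (0:ℝ) < b := by exact_mod_cast (by omega : 0 < b)
  have hS0 : ∀ i, ∀ r < b, 0 ≤ S i r := by
    intro i r hr
    refine (norm_nonneg _).trans (hS i r hr ((r:ℝ)/b) le_rfl ?_)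
    apply div_le_div_of_nonneg_right (by linarith) hb0.le
  have hmap : ∀ i ∈ I, ⌊(b:ℝ)^K * Int.fract (x i)⌋₊ ∈ range (b^K) := by
    intro i _
    rw [mem_range, Nat.floor_lt (by have := Int.fract_nonneg (x i); positivity)]
    have := Int.fract_lt_one (x i)
    have h2 : (0:ℝ) < (b:ℝ)^K := by positivity
    push_cast
    nlinarith
  calc ∑ i ∈ I, ‖SD b D K (x i)‖ ≤ ∑ i ∈ I, WD b S K ⌊(b:ℝ)^K * Int.fract (x i)⌋₊ :=
        sum_le_sum fun i _ => SD_WD hb K D hD S hS (x i)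
    _ = ∑ j ∈ range (b^K), ∑ i ∈ I.filter (fun i => ⌊(b:ℝ)^K * Int.fract (x i)⌋₊ = j), WD b S K ⌊(b:ℝ)^K * Int.fract (x i)⌋₊ :=
        (sum_fiberwise_of_maps_to hmap _).symm
    _ = ∑ j ∈ range (b^K), ((I.filter (fun i => ⌊(b:ℝ)^K * Int.fract (x i)⌋₊ = j)).card : ℝ) * WD b S K j := by
        refine sum_congr rfl fun j _ => ?_
        rw [← nsmul_eq_mul, ← sum_const]
        refine sum_congr rfl fun i hi => ?_
        rw [mem_filter] at hi
        rw [hi.2]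
    _ ≤ ∑ j ∈ range (b^K), M * WD b S K j := by
        refine sum_le_sum fun j hj => ?_
        apply mul_le_mul_of_nonneg_right (hM j)
        exact WD_nonneg hb K S hS0 j (mem_range.mp hj)
    _ ≤ M * B^K := by
        rw [← mul_sum]
        exact mul_le_mul_of_nonneg_left (WD_sum hb K S hS0 hB) hM0

end Pool.Agent.H31.MO
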