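import Mathlib
import Pool.Agent.H31.MO.A
import Pool.Agent.H31.ZD.Ex
import Pool.Agent.H31.ZD.Sp

/-!
# The kernel of the digit sets summed over all pairs of integers up to `N`
-/

set_option autoImplicit false

open Finset

namespace Pool.Agent.H31.MO

open Pool.Agent.H31.ZD

/-- the number of reduced fractions of height at most `P` modulo one in a `b`-adic interval -/
lemma cnt {c : ℝ} (hc : 0 < c) (K : ℕ) {b : ℕ} (hb : 2 ≤ b) {P : ℝ} (hP : 1 ≤ P) (I : Finset (ℕ × ℕ))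
    (hI : ∀ p ∈ I, Nat.Coprime p.1 p.2 ∧ 1 ≤ p.1 ∧ 1 ≤ p.2 ∧ (p.1:ℝ) ≤ P ∧ (p.2:ℝ) ≤ P) (m : ℕ) :
    ((I.filter (fun p => ⌊(b:ℝ)^K * Int.fract (fq c p)⌋₊ = m)).card : ℝ) ≤
      (2 * c * Real.log P + 2) * (P^2 / (c * b^K) + 1) := by
  have hb0 : (0:ℝ) < b := by exact_mod_cast (by omega : 0 < b)
  have hbK : (0:ℝ) < (b:ℝ)^K := by positivity
  have hP0 : 0 < P := by linarith
  have hlP : 0 ≤ Real.log P := Real.log_nonneg hP
  set η : ℝ := c * (1 / (P * P)) with hη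
  have hη0 : 0 < η := by positivity
  set A : ℝ := -(c * Real.log P) with hA
  set F : ℕ × ℕ → ℤ × ℕ := fun p => (⌊fq c p⌋, ⌊(Int.fract (fq c p) - m / (b:ℝ)^K) / η⌋₊) with hF
  set J := I.filter (fun p => ⌊(b:ℝ)^K * Int.fract (fq c p)⌋₊ = m) with hJ
  have hx : ∀ p ∈ J, A ≤ fq c p ∧ fq c p ≤ A + 2 * c * Real.log P := by
    intro p hp
    rw [hJ, mem_filter] at hp
    obtain ⟨_, h1, h2, h3, h4⟩ := hI p hp.1
    have q1 : (1:ℝ) ≤ p.1 := by exact_mod_cast h1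
    have q2 : (1:ℝ) ≤ p.2 := by exact_mod_cast h2
    have a1 := Real.log_nonneg q1
    have a2 := Real.log_le_log (by linarith) h3
    have b1 := Real.log_nonneg q2
    have b2 := Real.log_le_log (by linarith) h4
    unfold fq
    rw [hA]
    constructor
    · nlinarith
    · nlinarith
  have hfr : ∀ p ∈ J, 0 ≤ Int.fract (fq c p) - m / (b:ℝ)^K ∧ Int.fract (fq c p) - m / (b:ℝ)^K < 1 / (b:ℝ)^K := by
    intro p hp
    rw [hJ, mem_filter] at hp
    have hf0 := Int.fract_nonneg (fq c p)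
    have h1 := Nat.floor_le (a := (b:ℝ)^K * Int.fract (fq c p)) (by positivity)
    have h2 := Nat.lt_floor_add_one ((b:ℝ)^K * Int.fract (fq c p))
    rw [hp.2] at h1 h2
    constructor
    · rw [sub_nonneg, div_le_iff₀ hbK]; linarith
    · rw [sub_lt_iff_lt_add, ← add_div, lt_div_iff₀ hbK]; linarith
  have hmaps : ∀ p ∈ J, F p ∈ (Finset.Icc ⌊A⌋ ⌊A + 2 * c * Real.log P⌋) ×ˢ (range (⌊1 / (b:ℝ)^K / η⌋₊ + 1)) := by
    intro p hp
    rw [mem_product, mem_Icc, mem_range]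
    obtain ⟨h1, h2⟩ := hx p hp
    obtain ⟨h3, h4⟩ := hfr p hp
    refine ⟨⟨Int.floor_le_floor h1, Int.floor_le_floor h2⟩, ?_⟩
    have : ⌊(Int.fract (fq c p) - m / (b:ℝ)^K) / η⌋₊ ≤ ⌊1 / (b:ℝ)^K / η⌋₊ := by
      apply Nat.floor_le_floor
      exact div_le_div_of_nonneg_right h4.le hη0.le
    simp only [hF]
    omega
  have hinj : Set.InjOn F (J : Set (ℕ × ℕ)) := by
    intro p hp q hq hpq
    rw [mem_coe] at hp hq
    by_contra hne
    have hpI := hI p (by rw [hJ, mem_filter] at hp; exact hp.1)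
    have hqI := hI q (by rw [hJ, mem_filter] at hq; exact hq.1)
    obtain ⟨hc1, p1, p2, p3, p4⟩ := hpI
    obtain ⟨hc2, q1, q2, q3, q4⟩ := hqI
    have hsep := log_sep (U := P) (V := P) hc1 hc2 p1 p2 q1 q2 p3 p4 q3 q4 hne
    simp only [hF, Prod.mk.injEq] at hpq
    obtain ⟨g1, g2⟩ := hpq
    obtain ⟨f1, f2⟩ := hfr p hp
    obtain ⟨f3, f4⟩ := hfr q hq
    have u1 := Nat.floor_le (a := (Int.fract (fq c p) - m / (b:ℝ)^K) / η) (by positivity)
    have u2 := Nat.lt_floor_add_one ((Int.fract (fq c p) - m / (b:ℝ)^K) / η)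
    have u3 := Nat.floor_le (a := (Int.fract (fq c q) - m / (b:ℝ)^K) / η) (by positivity)
    have u4 := Nat.lt_floor_add_one ((Int.fract (fq c q) - m / (b:ℝ)^K) / η)
    rw [← g2] at u3 u4
    have v1 : |Int.fract (fq c p) - Int.fract (fq c q)| < η := by
      have e1 : Int.fract (fq c p) - Int.fract (fq c q) =
        ((Int.fract (fq c p) - m / (b:ℝ)^K) / η - (Int.fract (fq c q) - m / (b:ℝ)^K) / η) * η := by
        field_simp; ring
      rw [e1, abs_mul, abs_of_pos hη0]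
      have : |(Int.fract (fq c p) - m / (b:ℝ)^K) / η - (Int.fract (fq c q) - m / (b:ℝ)^K) / η| < 1 := by
        rw [abs_lt]; constructor <;> linarith
      nlinarith
    have v2 : fq c p - fq c q = Int.fract (fq c p) - Int.fract (fq c q) := by
      have w1 := Int.fract_add_floor (fq c p)
      have w2 := Int.fract_add_floor (fq c q)
      rw [← g1] at w2
      linarith
    rw [← v2] at v1
    have v3 : fq c p - fq c q = c * ((Real.log p.2 - Real.log p.1) - (Real.log q.2 - Real.log q.1)) := by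
      unfold fq; ring
    rw [v3, abs_mul, abs_of_pos hc] at v1
    have := mul_le_mul_of_nonneg_left hsep hc.le
    linarith
  have hcard := card_le_card_of_injOn F (fun p hp => hmaps p hp) hinj
  rw [card_product, Int.card_Icc, card_range] at hcard
  have hcr : (J.card : ℝ) ≤ ((⌊A + 2 * c * Real.log P⌋ + 1 - ⌊A⌋).toNat : ℝ) * ((⌊1 / (b:ℝ)^K / η⌋₊ : ℝ) + 1) := by
    exact_mod_cast hcard
  refine hcr.trans ?_
  have k1 : ((⌊A + 2 * c * Real.log P⌋ + 1 - ⌊A⌋).toNat : ℝ) ≤ 2 * c * Real.log P + 2 := by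
    have z0 : ⌊A⌋ ≤ ⌊A + 2 * c * Real.log P⌋ := Int.floor_le_floor (by nlinarith [mul_nonneg hc.le hlP])
    have z1 : (((⌊A + 2 * c * Real.log P⌋ + 1 - ⌊A⌋).toNat : ℤ) : ℝ) = ((⌊A + 2 * c * Real.log P⌋ + 1 - ⌊A⌋ : ℤ) : ℝ) := by
      rw [Int.toNat_of_nonneg (by omega)]
    have z2 : ((⌊A + 2 * c * Real.log P⌋ + 1 - ⌊A⌋).toNat : ℝ) = ((⌊A + 2 * c * Real.log P⌋ + 1 - ⌊A⌋ : ℤ) : ℝ) := by
      rw [← z1]; norm_cast
    rw [z2]
    push_cast
    have z3 := Int.floor_le (A + 2 * c * Real.log P)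
    have z4 := Int.lt_floor_add_one A
    linarith
  have k2 : (⌊1 / (b:ℝ)^K / η⌋₊ : ℝ) + 1 ≤ P^2 / (c * b^K) + 1 := by
    have z1 := Nat.floor_le (a := 1 / (b:ℝ)^K / η) (by positivity)
    have z2 : 1 / (b:ℝ)^K / η = P^2 / (c * b^K) := by
      rw [hη]; field_simp
    rw [z2] at z1 ⊢
    linarith
  have k3 : 0 ≤ 2 * c * Real.log P := by positivity
  exact mul_le_mul k1 k2 (by positivity) (by linarith)

/-- the sum over the reduced fractions of height at most `P` -/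
lemma gsum {c : ℝ} (hc : 1 / 7 ≤ c) {b : ℕ} (hb : 2 ≤ b) {D : ℕ → Finset ℕ} (hD : ∀ i, ∀ d ∈ D i, d < b)
    {s : ℕ} (hs1 : 1 ≤ s) (hs : ∀ i, (D i).card = s) {S : ℕ → ℕ → ℝ}
    (hS : ∀ i, ∀ r < b, ∀ x : ℝ, (r:ℝ) / b ≤ x → x ≤ ((r:ℝ) + 1) / b → ‖ph (D i) x‖ ≤ S i r)
    {lam : ℝ} (hlam : 1 ≤ lam) (hB : ∀ i, ∑ r ∈ range b, S i r ≤ b * lam)
    (L : ℕ) {N : ℝ} (hL : (b:ℝ)^L ≤ N^2) {P : ℝ} (hP : 1 ≤ P) (hPN : P ≤ N) (I : Finset (ℕ × ℕ))
    (hI : ∀ p ∈ I, Nat.Coprime p.1 p.2 ∧ 1 ≤ p.1 ∧ 1 ≤ p.2 ∧ (p.1:ℝ) ≤ P ∧ (p.2:ℝ) ≤ P) :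
    ∑ p ∈ I, ‖SD b D L (fq c p)‖ ≤ 128 * c * (1 + Real.log P) * lam^L * (2 * b * P * (N + (s:ℝ)^L)) := by
  classical
  have hc0 : 0 < c := by linarith
  have hb1 : (1:ℝ) < b := by exact_mod_cast (by omega : 1 < b)
  have hb0 : (0:ℝ) < b := by linarith
  have hP0 : 0 < P := by linarith
  have hN0 : 0 < N := by linarith
  have hlP : 0 ≤ Real.log P := Real.log_nonneg hP
  have hs0 : (1:ℝ) ≤ s := by exact_mod_cast hs1
  have hsb : (s:ℝ) ≤ b := by
    have h1 : D 0 ⊆ range b := fun d hd => mem_range.mpr (hD 0 d hd)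
    have h2 := card_le_card h1
    rw [card_range, hs 0] at h2
    exact_mod_cast h2
  obtain ⟨K, hK⟩ : ∃ K, K = Nat.findGreatest (fun k => (b:ℝ)^k ≤ P^2) L := ⟨_, rfl⟩
  have hKL : K ≤ L := by rw [hK]; exact Nat.findGreatest_le L
  have hKP : (b:ℝ)^K ≤ P^2 := by
    have h0 : (b:ℝ)^0 ≤ P^2 := by rw [pow_zero]; nlinarith
    have := Nat.findGreatest_spec (P := fun k => (b:ℝ)^k ≤ P^2) (Nat.zero_le L) h0
    rw [← hK] at this
    exact this
  have hKn : K < L → P^2 < (b:ℝ)^(K+1) := by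
    intro h
    have := Nat.findGreatest_is_greatest (P := fun k => (b:ℝ)^k ≤ P^2) (n := L) (k := K + 1) (by omega) (by omega)
    exact not_le.mp this
  have hbK : (0:ℝ) < (b:ℝ)^K := by positivity
  -- the number of points in the intervals
  have h1 : ∑ p ∈ I, ‖SD b D K (fq c p)‖ ≤ ((2 * c * Real.log P + 2) * (P^2 / (c * b^K) + 1)) * (b * lam)^K := by
    apply ptsD hb hD hS hB K I (fun p => fq c p) _ (by positivity)
    intro j
    exact cnt hc0 K hb hP I hI j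
  have h2 : ((2 * c * Real.log P + 2) * (P^2 / (c * b^K) + 1)) * (b * lam)^K ≤ 128 * c * (1 + Real.log P) * lam^L * P^2 := by
    have e1 : ((2 * c * Real.log P + 2) * (P^2 / (c * b^K) + 1)) * (b * lam)^K = (2 * c * Real.log P + 2) * (P^2 / c + b^K) * lam^K := by
      rw [mul_pow]; field_simp
    rw [e1]
    have e2 : P^2 / c + (b:ℝ)^K ≤ (1 + c) / c * P^2 := by
      have : (1 + c) / c * P^2 = P^2 / c + P^2 := by field_simp
      rw [this]; linarith
    have e3 : lam^K ≤ lam^L := pow_le_pow_right₀ hlam hKL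
    have e4 : 2 * c * Real.log P + 2 ≤ 2 * (1 + c) * (1 + Real.log P) := by nlinarith
    have e5 : 2 * (1 + c) * (1 + Real.log P) * ((1 + c) / c * P^2) ≤ 128 * c * (1 + Real.log P) * P^2 := by
      have : 2 * (1 + c) * (1 + Real.log P) * ((1 + c) / c * P^2) = (2 * (1 + c)^2 / c) * ((1 + Real.log P) * P^2) := by field_simp
      rw [this]
      have e6 : 2 * (1 + c)^2 / c ≤ 128 * c := by
        rw [div_le_iff₀ hc0]
        nlinarith
      calc _ ≤ (128 * c) * ((1 + Real.log P) * P^2) := mul_le_mul_of_nonneg_right e6 (by positivity)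
        _ = _ := by ring
    calc (2 * c * Real.log P + 2) * (P^2 / c + b^K) * lam^K
        ≤ (2 * (1 + c) * (1 + Real.log P)) * ((1 + c) / c * P^2) * lam^L := by
          apply mul_le_mul (mul_le_mul e4 e2 (by positivity) (by positivity)) e3 (by positivity) (by positivity)
      _ ≤ (128 * c * (1 + Real.log P) * P^2) * lam^L := mul_le_mul_of_nonneg_right e5 (by positivity)
      _ = _ := by ring
  -- the sizes
  have h3 : P^2 * (s:ℝ)^(L-K) ≤ 2 * b * P * (N + (s:ℝ)^L) := by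
    have hsL : (1:ℝ) ≤ (s:ℝ)^L := one_le_pow₀ hs0
    rcases Nat.lt_or_ge K L with h | h
    · have h4 := hKn h
      have h5 : P * (s:ℝ)^(L-K) ≤ b * (N + (s:ℝ)^L) := by
        have hsLK : (0:ℝ) < (s:ℝ)^(L-K) := by positivity
        rcases le_total (b:ℝ) ((s:ℝ)^2) with h6 | h6
        · -- large digit sets
          have a1 : P < (s:ℝ)^(K+1) := by
            apply lt_of_pow_lt_pow_left₀ 2 (by positivity)
            calc P^2 < (b:ℝ)^(K+1) := h4
              _ ≤ ((s:ℝ)^2)^(K+1) := pow_le_pow_left₀ hb0.le h6 _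
              _ = ((s:ℝ)^(K+1))^2 := by rw [← pow_mul, ← pow_mul]; ring_nf
          have a2 : (s:ℝ)^(K+1) * (s:ℝ)^(L-K) = s * (s:ℝ)^L := by
            rw [← pow_add, ← pow_succ']
            congr 1
            omega
          calc P * (s:ℝ)^(L-K) ≤ (s:ℝ)^(K+1) * (s:ℝ)^(L-K) := mul_le_mul_of_nonneg_right a1.le hsLK.le
            _ = s * (s:ℝ)^L := a2
            _ ≤ b * (s:ℝ)^L := mul_le_mul_of_nonneg_right hsb (by positivity)
            _ ≤ b * (N + (s:ℝ)^L) := by nlinarith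
        · -- small digit sets
          have a1 : P * (s:ℝ)^(L-K) ≤ b * N := by
            rw [← pow_le_pow_iff_left₀ (by positivity) (by positivity) (by norm_num : (2:ℕ) ≠ 0)]
            have a2 : ((s:ℝ)^(L-K))^2 ≤ (b:ℝ)^(L-K) := by
              rw [← pow_mul, mul_comm, pow_mul]
              exact pow_le_pow_left₀ (by positivity) h6 _
            have a3 : (b:ℝ)^(K+1) * (b:ℝ)^(L-K) = b * (b:ℝ)^L := by
              rw [← pow_add, ← pow_succ']
              congr 1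
              omega
            calc (P * (s:ℝ)^(L-K))^2 = P^2 * ((s:ℝ)^(L-K))^2 := mul_pow _ _ _
              _ ≤ (b:ℝ)^(K+1) * (b:ℝ)^(L-K) := mul_le_mul h4.le a2 (by positivity) (by positivity)
              _ = b * (b:ℝ)^L := a3
              _ ≤ b * N^2 := mul_le_mul_of_nonneg_left hL hb0.le
              _ ≤ (b * N)^2 := by
                rw [mul_pow]
                apply mul_le_mul_of_nonneg_right _ (by positivity)
                nlinarith
          nlinarith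
      calc P^2 * (s:ℝ)^(L-K) = P * (P * (s:ℝ)^(L-K)) := by ring
        _ ≤ P * (b * (N + (s:ℝ)^L)) := mul_le_mul_of_nonneg_left h5 hP0.le
        _ ≤ 2 * b * P * (N + (s:ℝ)^L) := by nlinarith [mul_pos (mul_pos hb0 hP0) (by linarith : (0:ℝ) < N + (s:ℝ)^L)]
    · have : L - K = 0 := by omega
      rw [this, pow_zero, mul_one]
      have q1 : P^2 ≤ P * N := by nlinarith
      have q2 : P * N ≤ 2 * b * P * (N + (s:ℝ)^L) := by
        have : 0 < P * N := by positivity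
        have : 0 < P * (s:ℝ)^L := by positivity
        nlinarith
      linarith
  calc ∑ p ∈ I, ‖SD b D L (fq c p)‖ ≤ ∑ p ∈ I, ‖SD b D K (fq c p)‖ * (s:ℝ)^(L-K) :=
        sum_le_sum fun p _ => SD_le hb K D hD hs L _ hKL
    _ = (∑ p ∈ I, ‖SD b D K (fq c p)‖) * (s:ℝ)^(L-K) := by rw [sum_mul]
    _ ≤ (128 * c * (1 + Real.log P) * lam^L * P^2) * (s:ℝ)^(L-K) :=
        mul_le_mul_of_nonneg_right (h1.trans h2) (by positivity)
    _ = (128 * c * (1 + Real.log P) * lam^L) * (P^2 * (s:ℝ)^(L-K)) := by ring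
    _ ≤ (128 * c * (1 + Real.log P) * lam^L) * (2 * b * P * (N + (s:ℝ)^L)) :=
        mul_le_mul_of_nonneg_left h3 (by positivity)

/-- **the kernel summed over all pairs** -/
theorem pairs {c : ℝ} (hc : 1 / 7 ≤ c) {b : ℕ} (hb : 2 ≤ b) {D : ℕ → Finset ℕ} (hD : ∀ i, ∀ d ∈ D i, d < b)
    {s : ℕ} (hs1 : 1 ≤ s) (hs : ∀ i, (D i).card = s) {S : ℕ → ℕ → ℝ}
    (hS : ∀ i, ∀ r < b, ∀ x : ℝ, (r:ℝ) / b ≤ x → x ≤ ((r:ℝ) + 1) / b → ‖ph (D i) x‖ ≤ S i r)
    {lam : ℝ} (hlam : 1 ≤ lam) (hB : ∀ i, ∑ r ∈ range b, S i r ≤ b * lam)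
    (L N : ℕ) (hL : (b:ℝ)^L ≤ (N:ℝ)^2) (hN : 1 ≤ N) :
    ∑ x ∈ (Icc 1 N) ×ˢ (Icc 1 N), ‖SD b D L (fq c x)‖ ≤
      256 * c * b * (1 + Real.log N)^2 * lam^L * (N + (s:ℝ)^L) * N := by
  classical
  have hN1 : (1:ℝ) ≤ N := by exact_mod_cast hN
  have hc0 : 0 < c := by linarith
  have hb0 : (0:ℝ) < b := by exact_mod_cast (by omega : 0 < b)
  have hlN : 0 ≤ Real.log N := Real.log_nonneg hN1
  have hmap : ∀ x ∈ (Icc 1 N) ×ˢ (Icc 1 N), Nat.gcd x.1 x.2 ∈ Icc 1 N := by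
    intro x hx
    rw [mem_product, mem_Icc, mem_Icc] at hx
    rw [mem_Icc]
    have h1 := Nat.gcd_le_left x.2 (by omega : 0 < x.1)
    have h2 := Nat.gcd_pos_of_pos_left x.2 (by omega : 0 < x.1)
    omega
  rw [← sum_fiberwise_of_maps_to hmap]
  have hg : ∀ g ∈ Icc 1 N, ∑ x ∈ ((Icc 1 N) ×ˢ (Icc 1 N)).filter (fun x => Nat.gcd x.1 x.2 = g), ‖SD b D L (fq c x)‖ ≤
      (256 * c * b * (1 + Real.log N) * lam^L * (N + (s:ℝ)^L) * N) * (g:ℝ)⁻¹ := by
    intro g hg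
    rw [mem_Icc] at hg
    have hg0 : (0:ℝ) < g := by exact_mod_cast (by omega : 0 < g)
    have hg1 : (1:ℝ) ≤ g := by exact_mod_cast hg.1
    have hgN : (g:ℝ) ≤ N := by exact_mod_cast hg.2
    set X := ((Icc 1 N) ×ˢ (Icc 1 N)).filter (fun x => Nat.gcd x.1 x.2 = g) with hX
    have hXm : ∀ x ∈ X, 1 ≤ x.1 ∧ x.1 ≤ N ∧ 1 ≤ x.2 ∧ x.2 ≤ N ∧ Nat.gcd x.1 x.2 = g := by
      intro x hx
      rw [hX, mem_filter, mem_product, mem_Icc, mem_Icc] at hx
      exact ⟨hx.1.1.1, hx.1.1.2, hx.1.2.1, hx.1.2.2, hx.2⟩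
    have hdiv : ∀ x ∈ X, x.1 = g * (x.1 / g) ∧ x.2 = g * (x.2 / g) := by
      intro x hx
      obtain ⟨_, _, _, _, h⟩ := hXm x hx
      constructor
      · exact (Nat.mul_div_cancel' (h ▸ Nat.gcd_dvd_left x.1 x.2)).symm
      · exact (Nat.mul_div_cancel' (h ▸ Nat.gcd_dvd_right x.1 x.2)).symm
    have hfq : ∀ x ∈ X, fq c x = fq c (x.1 / g, x.2 / g) := by
      intro x hx
      obtain ⟨h1, h2, h3, h4, h⟩ := hXm x hx
      obtain ⟨d1, d2⟩ := hdiv x hx
      have p1 : 0 < x.1 / g := Nat.pos_of_ne_zero fun h0 => by rw [h0] at d1; omega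
      have p2 : 0 < x.2 / g := Nat.pos_of_ne_zero fun h0 => by rw [h0] at d2; omega
      have e1 : (x.1:ℝ) = g * ((x.1 / g : ℕ) : ℝ) := by exact_mod_cast d1
      have e2 : (x.2:ℝ) = g * ((x.2 / g : ℕ) : ℝ) := by exact_mod_cast d2
      unfold fq
      simp only
      rw [e1, e2, Real.log_mul hg0.ne' (by exact_mod_cast p2.ne'), Real.log_mul hg0.ne' (by exact_mod_cast p1.ne')]
      ring
    rw [sum_congr rfl (fun x hx => by rw [hfq x hx])]
    have hinj : Set.InjOn (fun x : ℕ × ℕ => (x.1 / g, x.2 / g)) (X : Set (ℕ × ℕ)) := by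
      intro x hx y hy hxy
      rw [mem_coe] at hx hy
      obtain ⟨d1, d2⟩ := hdiv x hx
      obtain ⟨e1, e2⟩ := hdiv y hy
      simp only [Prod.mk.injEq] at hxy
      apply Prod.ext
      · rw [d1, e1, hxy.1]
      · rw [d2, e2, hxy.2]
    rw [← sum_image (f := fun y : ℕ × ℕ => ‖SD b D L (fq c y)‖) hinj]
    have hP1 : (1:ℝ) ≤ N / g := by rw [le_div_iff₀ hg0]; linarith
    have hPN : (N:ℝ) / g ≤ N := div_le_self (by linarith) hg1
    refine (gsum hc hb hD hs1 hs hS hlam hB L hL hP1 hPN _ ?_).trans ?_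
    · intro y hy
      rw [mem_image] at hy
      obtain ⟨x, hx, rfl⟩ := hy
      obtain ⟨h1, h2, h3, h4, h⟩ := hXm x hx
      obtain ⟨d1, d2⟩ := hdiv x hx
      have p1 : 0 < x.1 / g := Nat.pos_of_ne_zero fun h0 => by rw [h0] at d1; omega
      have p2 : 0 < x.2 / g := Nat.pos_of_ne_zero fun h0 => by rw [h0] at d2; omega
      refine ⟨?_, p1, p2, ?_, ?_⟩
      · simp only
        rw [← h]
        exact Nat.coprime_div_gcd_div_gcd (by rw [h]; omega)
      · simp only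
        rw [le_div_iff₀ hg0]
        have : x.1 / g * g ≤ N := by rw [mul_comm, ← d1]; exact h2
        exact_mod_cast this
      · simp only
        rw [le_div_iff₀ hg0]
        have : x.2 / g * g ≤ N := by rw [mul_comm, ← d2]; exact h4
        exact_mod_cast this
    · have hl : Real.log (N / g) ≤ Real.log N := Real.log_le_log (by linarith) hPN
      have hl0 : 0 ≤ Real.log (N / g) := Real.log_nonneg hP1
      calc 128 * c * (1 + Real.log (N / g)) * lam^L * (2 * b * (N / g) * (N + (s:ℝ)^L))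
          ≤ 128 * c * (1 + Real.log N) * lam^L * (2 * b * (N / g) * (N + (s:ℝ)^L)) := by
            apply mul_le_mul_of_nonneg_right _ (by positivity)
            apply mul_le_mul_of_nonneg_right _ (by positivity)
            apply mul_le_mul_of_nonneg_left (by linarith) (by positivity)
        _ = _ := by field_simp; ring
  refine (sum_le_sum hg).trans ?_
  rw [← mul_sum]
  have e5 : ∑ g ∈ Icc 1 N, (g:ℝ)⁻¹ ≤ 1 + Real.log N := by
    have e5 := harmonic_le_one_add_log N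
    rw [harmonic_eq_sum_Icc] at e5
    push_cast at e5
    exact e5
  calc _ ≤ (256 * c * b * (1 + Real.log N) * lam^L * (N + (s:ℝ)^L) * N) * (1 + Real.log N) :=
        mul_le_mul_of_nonneg_left e5 (by positivity)
    _ = _ := by ring

end Pool.Agent.H31.MO
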