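import Mathlib
import Pool.Agent.H31.MO.B

/-!
# Dirichlet polynomials at the points of a digit set and near them
-/

set_option autoImplicit false

open Finset

namespace Pool.Agent.H31.MO

open Pool.Agent.H31.ZD

/-- the Dirichlet polynomial `∑_{1 ≤ n ≤ N} a n * exp (i t log n)` -/
noncomputable def dirPoly (N : ℕ) (a : ℕ → ℂ) (t : ℝ) : ℂ :=
  ∑ n ∈ Icc 1 N, a n * Complex.exp (((t * Real.log n : ℝ) : ℂ) * Complex.I)

/-- the mean square over the points `β + α u` -/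
lemma gram (b L N : ℕ) (D : ℕ → Finset ℕ) (a : ℕ → ℂ) (ha : ∀ n, 1 ≤ n → n ≤ N → ‖a n‖ ≤ 1) (α β : ℝ) :
    ∑ u ∈ Dset b L D, ‖dirPoly N a (β + α * u)‖^2 ≤
      ∑ x ∈ (Icc 1 N) ×ˢ (Icc 1 N), ‖SD b D L (fq (α / (2 * Real.pi)) x)‖ := by
  have key : (((∑ u ∈ Dset b L D, ‖dirPoly N a (β + α * u)‖^2 : ℝ)) : ℂ) =
      ∑ x ∈ (Icc 1 N) ×ˢ (Icc 1 N), ((starRingEnd ℂ) (a x.1) * a x.2 *
        Complex.exp (((β * (Real.log x.2 - Real.log x.1) : ℝ) : ℂ) * Complex.I)) * SD b D L (fq (α / (2 * Real.pi)) x) := by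
    have e1 : ∀ u : ℕ, ((‖dirPoly N a (β + α * u)‖^2 : ℝ) : ℂ) =
        ∑ x ∈ (Icc 1 N) ×ˢ (Icc 1 N), ((starRingEnd ℂ) (a x.1) * a x.2 *
        Complex.exp (((β * (Real.log x.2 - Real.log x.1) : ℝ) : ℂ) * Complex.I)) * ee (u * fq (α / (2 * Real.pi)) x) := by
      intro u
      have h1 : ((‖dirPoly N a (β + α * u)‖^2 : ℝ) : ℂ) = (starRingEnd ℂ) (dirPoly N a (β + α * u)) * dirPoly N a (β + α * u) := by
        rw [Complex.conj_mul']
        push_cast
        rfl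
      rw [h1]
      unfold dirPoly
      rw [map_sum, sum_mul_sum, ← sum_product']
      refine sum_congr rfl fun x _ => ?_
      rw [map_mul, ← Complex.exp_conj, map_mul, Complex.conj_I, Complex.conj_ofReal]
      have e2 : (starRingEnd ℂ) (a x.1) * Complex.exp ((((β + α * u) * Real.log x.1 : ℝ) : ℂ) * -Complex.I) *
          (a x.2 * Complex.exp ((((β + α * u) * Real.log x.2 : ℝ) : ℂ) * Complex.I)) =
          (starRingEnd ℂ) (a x.1) * a x.2 * (Complex.exp ((((β + α * u) * Real.log x.1 : ℝ) : ℂ) * -Complex.I) *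
          Complex.exp ((((β + α * u) * Real.log x.2 : ℝ) : ℂ) * Complex.I)) := by ring
      rw [e2, ← Complex.exp_add]
      unfold ee fq
      rw [mul_assoc ((starRingEnd ℂ) (a x.1) * a x.2), ← Complex.exp_add]
      congr 2
      have hpi : (Real.pi : ℂ) ≠ 0 := by exact_mod_cast Real.pi_ne_zero
      push_cast
      field_simp
      ring
    push_cast
    have e3 : ∀ u ∈ Dset b L D, ((‖dirPoly N a (β + α * u)‖ : ℂ))^2 =
        ∑ x ∈ (Icc 1 N) ×ˢ (Icc 1 N), ((starRingEnd ℂ) (a x.1) * a x.2 *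
        Complex.exp (((β * (Real.log x.2 - Real.log x.1) : ℝ) : ℂ) * Complex.I)) * ee (u * fq (α / (2 * Real.pi)) x) := by
      intro u _
      rw [← e1 u]
      push_cast
      rfl
    rw [sum_congr rfl e3, sum_comm]
    refine sum_congr rfl fun x _ => ?_
    unfold SD
    rw [mul_sum]
    push_cast
    rfl
  have h2 : 0 ≤ ∑ u ∈ Dset b L D, ‖dirPoly N a (β + α * u)‖^2 := sum_nonneg fun u _ => by positivity
  have h3 : ∑ u ∈ Dset b L D, ‖dirPoly N a (β + α * u)‖^2 = ‖(((∑ u ∈ Dset b L D, ‖dirPoly N a (β + α * u)‖^2 : ℝ)) : ℂ)‖ := by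
    rw [Complex.norm_real, Real.norm_of_nonneg h2]
  rw [h3, key]
  refine (norm_sum_le _ _).trans (sum_le_sum fun x hx => ?_)
  rw [mem_product, mem_Icc, mem_Icc] at hx
  rw [norm_mul, norm_mul, norm_mul, Complex.norm_exp_ofReal_mul_I, mul_one, RCLike.norm_conj]
  have h4 := ha x.1 hx.1.1 hx.1.2
  have h5 := ha x.2 hx.2.1 hx.2.2
  have h6 : ‖a x.1‖ * ‖a x.2‖ ≤ 1 := by
    have := mul_le_mul h4 h5 (norm_nonneg _) zero_le_one
    rwa [one_mul] at this
  have := mul_le_mul_of_nonneg_right h6 (norm_nonneg (SD b D L (fq (α / (2 * Real.pi)) x)))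
  rwa [one_mul] at this

/-- Cauchy's inequality with the weights `1/k!` -/
lemma cs (X : ℕ → ℝ) (hX : ∀ k, 0 ≤ X k) {M : ℝ} (hM : ∀ k, X k ≤ M) {z : ℝ} (hz0 : 0 ≤ z)
    (hz : z ≤ ∑' k : ℕ, X k / (k.factorial : ℝ)) :
    z^2 ≤ Real.exp 1 * ∑' k : ℕ, (X k)^2 / (k.factorial : ℝ) := by
  have hw : HasSum (fun k : ℕ => 1 / (k.factorial : ℝ)) (Real.exp 1) := by
    have h := NormedSpace.expSeries_div_hasSum_exp (𝔸 := ℝ) 1
    rw [← Real.exp_eq_exp_ℝ] at h
    simpa using h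
  have hM0 : 0 ≤ M := (hX 0).trans (hM 0)
  have s1 : Summable (fun k : ℕ => X k / (k.factorial : ℝ)) := by
    refine Summable.of_nonneg_of_le (fun k => div_nonneg (hX k) (by positivity)) (fun k => ?_) (hw.summable.mul_left M)
    rw [mul_one_div]
    exact div_le_div_of_nonneg_right (hM k) (by positivity)
  have s2 : Summable (fun k : ℕ => (X k)^2 / (k.factorial : ℝ)) := by
    refine Summable.of_nonneg_of_le (fun k => by positivity) (fun k => ?_) (hw.summable.mul_left (M^2))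
    rw [mul_one_div]
    exact div_le_div_of_nonneg_right (pow_le_pow_left₀ (hX k) (hM k) 2) (by positivity)
  obtain ⟨S, hS⟩ : ∃ S, S = ∑' k : ℕ, X k / (k.factorial : ℝ) := ⟨_, rfl⟩
  obtain ⟨A, hA⟩ : ∃ A, A = ∑' k : ℕ, (X k)^2 / (k.factorial : ℝ) := ⟨_, rfl⟩
  have t1 : HasSum (fun k : ℕ => X k / (k.factorial : ℝ)) S := by rw [hS]; exact s1.hasSum
  have t2 : HasSum (fun k : ℕ => (X k)^2 / (k.factorial : ℝ)) A := by rw [hA]; exact s2.hasSum
  have hE : 0 < Real.exp 1 := Real.exp_pos 1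
  have t3 : HasSum (fun k : ℕ => (X k - S / Real.exp 1)^2 / (k.factorial : ℝ))
      (A - 2 * (S / Real.exp 1) * S + (S / Real.exp 1)^2 * Real.exp 1) := by
    have := (t2.sub (t1.mul_left (2 * (S / Real.exp 1)))).add (hw.mul_left ((S / Real.exp 1)^2))
    have hfun : (fun k : ℕ => (X k - S / Real.exp 1)^2 / (k.factorial : ℝ)) =
        (fun k : ℕ => X k ^ 2 / (k.factorial : ℝ) - 2 * (S / Real.exp 1) * (X k / (k.factorial : ℝ)) + (S / Real.exp 1) ^ 2 * (1 / (k.factorial : ℝ))) := by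
      funext k
      ring
    rw [hfun]
    exact this
  have t4 : 0 ≤ A - 2 * (S / Real.exp 1) * S + (S / Real.exp 1)^2 * Real.exp 1 :=
    t3.nonneg fun k => by positivity
  have t5 : A - 2 * (S / Real.exp 1) * S + (S / Real.exp 1)^2 * Real.exp 1 = A - S^2 / Real.exp 1 := by
    field_simp; ring
  rw [t5] at t4
  have t6 : S^2 ≤ Real.exp 1 * A := by
    have : S^2 / Real.exp 1 ≤ A := by linarith
    rw [div_le_iff₀ hE] at this
    linarith
  rw [← hS] at hz
  rw [← hA]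
  exact (pow_le_pow_left₀ hz0 hz 2).trans t6

/-- the value near a point, through values at the point -/
lemma pert {N J : ℕ} (hJ1 : 1 ≤ J) (hJ : Real.log N ≤ J) (a : ℕ → ℂ) (ha : ∀ n, 1 ≤ n → n ≤ N → ‖a n‖ ≤ 1) (t0 θ : ℝ) (hθ : |θ| * J ≤ 1) :
    ‖dirPoly N a (t0 + θ)‖^2 ≤ Real.exp 1 *
      ∑' k : ℕ, ‖dirPoly N (fun n => a n * ((Real.log n / J : ℝ) : ℂ)^k) t0‖^2 / (k.factorial : ℝ) := by
  have hJ0 : (0:ℝ) < J := by exact_mod_cast hJ1
  have hcoef : ∀ k n : ℕ, 1 ≤ n → n ≤ N → ‖a n * ((Real.log n / J : ℝ) : ℂ)^k‖ ≤ 1 := by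
    intro k n hn1 hn2
    have h1 : (1:ℝ) ≤ n := by exact_mod_cast hn1
    have h2 : 0 ≤ Real.log n := Real.log_nonneg h1
    have h3 : Real.log n ≤ Real.log N := Real.log_le_log (by linarith) (by exact_mod_cast hn2)
    rw [norm_mul, norm_pow, Complex.norm_real, Real.norm_of_nonneg (by positivity)]
    have h4 : Real.log n / J ≤ 1 := by rw [div_le_one hJ0]; linarith
    have h5 : (Real.log n / J)^k ≤ 1 := pow_le_one₀ (by positivity) h4
    calc ‖a n‖ * (Real.log n / J)^k ≤ 1 * 1 := mul_le_mul (ha n hn1 hn2) h5 (by positivity) zero_le_one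
      _ = 1 := one_mul 1
  have hbd : ∀ k, ‖dirPoly N (fun n => a n * ((Real.log n / J : ℝ) : ℂ)^k) t0‖ ≤ N := by
    intro k
    unfold dirPoly
    refine (norm_sum_le _ _).trans ?_
    have : ∀ n ∈ Icc 1 N, ‖a n * ((Real.log n / J : ℝ) : ℂ)^k * Complex.exp (((t0 * Real.log n : ℝ) : ℂ) * Complex.I)‖ ≤ 1 := by
      intro n hn
      rw [mem_Icc] at hn
      rw [norm_mul, Complex.norm_exp_ofReal_mul_I, mul_one]
      exact hcoef k n hn.1 hn.2
    refine (sum_le_sum this).trans ?_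
    simp
  -- the expansion
  have hexp : HasSum (fun k : ℕ => (((θ * J : ℝ) : ℂ) * Complex.I)^k / (k.factorial : ℂ) *
      dirPoly N (fun n => a n * ((Real.log n / J : ℝ) : ℂ)^k) t0) (dirPoly N a (t0 + θ)) := by
    have h1 : ∀ n ∈ Icc 1 N, HasSum (fun k : ℕ => a n * Complex.exp (((t0 * Real.log n : ℝ) : ℂ) * Complex.I) *
        ((((θ * Real.log n : ℝ) : ℂ) * Complex.I)^k / (k.factorial : ℂ)))
        (a n * Complex.exp ((((t0 + θ) * Real.log n : ℝ) : ℂ) * Complex.I)) := by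
      intro n _
      have h2 := NormedSpace.expSeries_div_hasSum_exp (𝔸 := ℂ) (((θ * Real.log n : ℝ) : ℂ) * Complex.I)
      rw [← Complex.exp_eq_exp_ℂ] at h2
      have h3 := h2.mul_left (a n * Complex.exp (((t0 * Real.log n : ℝ) : ℂ) * Complex.I))
      have h4 : a n * Complex.exp (((t0 * Real.log n : ℝ) : ℂ) * Complex.I) * Complex.exp (((θ * Real.log n : ℝ) : ℂ) * Complex.I) =
          a n * Complex.exp ((((t0 + θ) * Real.log n : ℝ) : ℂ) * Complex.I) := by
        rw [mul_assoc, ← Complex.exp_add]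
        congr 2
        push_cast
        ring
      rw [h4] at h3
      exact h3
    have h5 := hasSum_sum h1
    unfold dirPoly
    refine h5.congr_fun ?_ |>.trans_eq rfl
    intro k
    rw [mul_sum]
    refine sum_congr rfl fun n _ => ?_
    have hJc : (J:ℂ) ≠ 0 := by exact_mod_cast hJ0.ne'
    have : (((θ * Real.log n : ℝ) : ℂ) * Complex.I)^k = (((θ * J : ℝ) : ℂ) * Complex.I)^k * ((Real.log n / J : ℝ) : ℂ)^k := by
      rw [← mul_pow]
      congr 1
      push_cast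
      field_simp
    rw [this]
    ring
  apply cs _ (fun k => norm_nonneg _) hbd (norm_nonneg _)
  rw [← hexp.tsum_eq]
  have hs : Summable (fun k : ℕ => ‖dirPoly N (fun n => a n * ((Real.log n / J : ℝ) : ℂ)^k) t0‖ / (k.factorial : ℝ)) := by
    have hw : Summable (fun k : ℕ => 1 / (k.factorial : ℝ)) := by
      have h := NormedSpace.expSeries_div_hasSum_exp (𝔸 := ℝ) 1
      simpa using h.summable
    refine Summable.of_nonneg_of_le (fun k => by positivity) (fun k => ?_) (hw.mul_left (N:ℝ))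
    rw [mul_one_div]
    exact div_le_div_of_nonneg_right (hbd k) (by positivity)
  refine tsum_of_norm_bounded hs.hasSum fun k => ?_
  rw [norm_mul, norm_div, norm_pow, norm_mul, Complex.norm_I, mul_one, Complex.norm_real, Complex.norm_natCast]
  have h6 : ‖θ * (J:ℝ)‖^k ≤ 1 := by
    apply pow_le_one₀ (norm_nonneg _)
    rw [Real.norm_eq_abs, abs_mul, abs_of_pos hJ0]
    exact hθ
  calc ‖θ * (J:ℝ)‖^k / (k.factorial : ℝ) * ‖dirPoly N (fun n => a n * ((Real.log n / J : ℝ) : ℂ)^k) t0‖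
      ≤ 1 / (k.factorial : ℝ) * ‖dirPoly N (fun n => a n * ((Real.log n / J : ℝ) : ℂ)^k) t0‖ := by
        apply mul_le_mul_of_nonneg_right _ (norm_nonneg _)
        exact div_le_div_of_nonneg_right h6 (by positivity)
    _ = _ := by ring

end Pool.Agent.H31.MO
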