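import Mathlib
import Pool.Agent.H31.MO.C

/-!
# Separated points near a digit set
-/

set_option autoImplicit false

open Finset

namespace Pool.Agent.H31.MO

open Pool.Agent.H31.ZD

theorem main {b L N s r : ℕ} (hb : 2 ≤ b) (hN : 1 ≤ N) (hL : b^L ≤ N^2) {D : ℕ → Finset ℕ}
    (hD : ∀ i, ∀ d ∈ D i, d < b) (hs1 : 1 ≤ s) (hs : ∀ i, (D i).card = s) (hr : ∀ i, runs (D i) ≤ r)
    {α β : ℝ} (hα : 1 ≤ α) (W : Finset ℝ) (hsep : ∀ t ∈ W, ∀ t' ∈ W, t ≠ t' → 1 ≤ |t - t'|)
    (hnear : ∀ t ∈ W, ∃ u ∈ Dset b L D, β + α * u ≤ t ∧ t < β + α * u + 1)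
    (a : ℕ → ℂ) (ha : ∀ n, 1 ≤ n → n ≤ N → ‖a n‖ ≤ 1) :
    ∑ t ∈ W, ‖dirPoly N a t‖^2 ≤
      400 * α * b * (1 + Real.log N)^3 * (r * (3 + Real.log b))^L * (N + (s:ℝ)^L) * N := by
  classical
  have hN1 : (1:ℝ) ≤ N := by exact_mod_cast hN
  have hlN : 0 ≤ Real.log N := Real.log_nonneg hN1
  have hb1 : (1:ℝ) < b := by exact_mod_cast (by omega : 1 < b)
  have hlb : 0 < Real.log b := Real.log_pos hb1
  have hne : ∀ i, (D i).Nonempty := fun i => by rw [← card_pos, hs i]; omega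
  have hr1 : (1:ℝ) ≤ r := by
    have := (runs_pos (hne 0)).trans (hr 0)
    exact_mod_cast this
  have hpi1 := Real.pi_gt_d2
  have hpi2 := Real.pi_lt_d2
  set lam : ℝ := r * (3 + Real.log b) with hlam
  have hlam1 : 1 ≤ lam := by rw [hlam]; nlinarith
  set c : ℝ := α / (2 * Real.pi) with hc
  have hc7 : 1 / 7 ≤ c := by
    rw [hc, le_div_iff₀ (by positivity)]
    linarith
  choose S hS1 hS2 using fun i => flat_runs hb (hD i) (hne i)
  have hS3 : ∀ i, ∑ q ∈ range b, S i q ≤ b * lam := by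
    intro i
    refine (hS2 i).trans ?_
    have h1 : (runs (D i) : ℝ) ≤ r := by exact_mod_cast hr i
    calc (runs (D i) : ℝ) * (b * (3 + Real.log b)) ≤ r * (b * (3 + Real.log b)) :=
          mul_le_mul_of_nonneg_right h1 (by positivity)
      _ = b * lam := by rw [hlam]; ring
  set B0 : ℝ := 256 * c * b * (1 + Real.log N)^2 * lam^L * (N + (s:ℝ)^L) * N with hB0
  have hB00 : 0 ≤ B0 := by rw [hB0]; positivity
  have hLr : (b:ℝ)^L ≤ (N:ℝ)^2 := by exact_mod_cast hL
  have hbd : ∀ (β' : ℝ) (a' : ℕ → ℂ), (∀ n, 1 ≤ n → n ≤ N → ‖a' n‖ ≤ 1) →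
      ∑ u ∈ Dset b L D, ‖dirPoly N a' (β' + α * u)‖^2 ≤ B0 := by
    intro β' a' ha'
    refine (gram b L N D a' ha' α β').trans ?_
    exact pairs hc7 hb hD hs1 hs hS1 hlam1 hS3 L N hLr hN
  set J : ℕ := ⌊Real.log N⌋₊ + 1 with hJ
  have hJ1 : 1 ≤ J := by omega
  have hJ0 : (0:ℝ) < J := by exact_mod_cast hJ1
  have hJl : Real.log N ≤ J := by
    rw [hJ]; push_cast; exact (Nat.lt_floor_add_one _).le
  have hJu : (J:ℝ) ≤ 1 + Real.log N := by
    rw [hJ]; push_cast; linarith [Nat.floor_le hlN]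
  choose! uf hu1 hu2 hu3 using hnear
  have hinj : Set.InjOn uf (W : Set ℝ) := by
    intro t ht t' ht' h
    rw [mem_coe] at ht ht'
    by_contra hne'
    have h1 := hsep t ht t' ht' hne'
    have h2 := hu2 t ht
    have h3 := hu3 t ht
    have h4 := hu2 t' ht'
    have h5 := hu3 t' ht'
    rw [← h] at h4 h5
    have : |t - t'| < 1 := by rw [abs_lt]; constructor <;> linarith
    linarith
  set jj : ℝ → ℕ := fun t => ⌊(J:ℝ) * (t - (β + α * uf t))⌋₊ with hjj
  have hjf : ∀ t ∈ W, (jj t : ℝ) ≤ J * (t - (β + α * uf t)) ∧ J * (t - (β + α * uf t)) < jj t + 1 := by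
    intro t ht
    have h1 := hu2 t ht
    exact ⟨Nat.floor_le (mul_nonneg hJ0.le (by linarith)), Nat.lt_floor_add_one _⟩
  have hjJ : ∀ t ∈ W, jj t ∈ range J := by
    intro t ht
    rw [mem_range]
    have h1 := hu3 t ht
    have h2 := (hjf t ht).1
    have : (jj t : ℝ) < J := by nlinarith
    exact_mod_cast this
  set ak : ℕ → ℕ → ℂ := fun k n => a n * ((Real.log n / J : ℝ) : ℂ)^k with hak
  have hcoef : ∀ k n : ℕ, 1 ≤ n → n ≤ N → ‖ak k n‖ ≤ 1 := by
    intro k n hn1 hn2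
    have h1 : (1:ℝ) ≤ n := by exact_mod_cast hn1
    have h2 : 0 ≤ Real.log n := Real.log_nonneg h1
    have h3 : Real.log n ≤ Real.log N := Real.log_le_log (by linarith) (by exact_mod_cast hn2)
    simp only [hak]
    rw [norm_mul, norm_pow, Complex.norm_real, Real.norm_of_nonneg (by positivity)]
    have h4 : Real.log n / J ≤ 1 := by rw [div_le_one hJ0]; linarith
    have h5 : (Real.log n / J)^k ≤ 1 := pow_le_one₀ (by positivity) h4
    calc ‖a n‖ * (Real.log n / J)^k ≤ 1 * 1 := mul_le_mul (ha n hn1 hn2) h5 (by positivity) zero_le_one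
      _ = 1 := one_mul 1
  have hN2 : ∀ k t, ‖dirPoly N (ak k) t‖ ≤ N := by
    intro k t
    unfold dirPoly
    refine (norm_sum_le _ _).trans ?_
    have : ∀ n ∈ Icc 1 N, ‖ak k n * Complex.exp (((t * Real.log n : ℝ) : ℂ) * Complex.I)‖ ≤ 1 := by
      intro n hn
      rw [mem_Icc] at hn
      rw [norm_mul, Complex.norm_exp_ofReal_mul_I, mul_one]
      exact hcoef k n hn.1 hn.2
    refine (sum_le_sum this).trans ?_
    simp
  set f : ℝ → ℕ → ℝ := fun t k => ‖dirPoly N (ak k) ((β + jj t / J) + α * uf t)‖^2 / (k.factorial : ℝ) with hf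
  have hw : HasSum (fun k : ℕ => 1 / (k.factorial : ℝ)) (Real.exp 1) := by
    have h := NormedSpace.expSeries_div_hasSum_exp (𝔸 := ℝ) 1
    rw [← Real.exp_eq_exp_ℝ] at h
    simpa using h
  have hfs : ∀ t ∈ W, Summable (f t) := by
    intro t _
    refine Summable.of_nonneg_of_le (fun k => by positivity) (fun k => ?_) (hw.summable.mul_left ((N:ℝ)^2))
    rw [mul_one_div]
    exact div_le_div_of_nonneg_right (pow_le_pow_left₀ (norm_nonneg _) (hN2 k _) 2) (by positivity)
  have h1 : ∀ t ∈ W, ‖dirPoly N a t‖^2 ≤ Real.exp 1 * ∑' k, f t k := by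
    intro t ht
    have h2 := hjf t ht
    have h3 : |t - (β + α * uf t) - jj t / J| * J ≤ 1 := by
      have h4 : 0 ≤ t - (β + α * uf t) - jj t / J := by
        rw [sub_nonneg, div_le_iff₀ hJ0]; linarith [h2.1]
      rw [abs_of_nonneg h4]
      have : (t - (β + α * uf t) - jj t / J) * J = J * (t - (β + α * uf t)) - jj t := by field_simp
      rw [this]; linarith [h2.2]
    have h5 := pert (N := N) hJ1 hJl a ha ((β + jj t / J) + α * uf t) (t - (β + α * uf t) - jj t / J) h3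
    have h6 : (β + jj t / J) + α * uf t + (t - (β + α * uf t) - jj t / J) = t := by ring
    rw [h6] at h5
    exact h5
  have h2 : ∀ k, ∑ t ∈ W, f t k ≤ (J * B0) * (1 / (k.factorial : ℝ)) := by
    intro k
    simp only [hf]
    rw [← sum_div, mul_one_div]
    apply div_le_div_of_nonneg_right _ (by positivity)
    rw [← sum_fiberwise_of_maps_to hjJ]
    have h3 : ∀ j ∈ range J, ∑ t ∈ W.filter (fun t => jj t = j), ‖dirPoly N (ak k) ((β + jj t / J) + α * uf t)‖^2 ≤ B0 := by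
      intro j _
      have e1 : ∑ t ∈ W.filter (fun t => jj t = j), ‖dirPoly N (ak k) ((β + jj t / J) + α * uf t)‖^2 =
          ∑ t ∈ W.filter (fun t => jj t = j), ‖dirPoly N (ak k) ((β + j / J) + α * uf t)‖^2 := by
        refine sum_congr rfl fun t ht => ?_
        rw [mem_filter] at ht
        rw [ht.2]
      rw [e1, ← sum_image (s := W.filter (fun t => jj t = j)) (g := uf)
        (f := fun u : ℕ => ‖dirPoly N (ak k) ((β + j / J) + α * u)‖^2)]
      · refine le_trans ?_ (hbd (β + j / J) (ak k) (hcoef k))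
        apply sum_le_sum_of_subset_of_nonneg
        · intro u hu
          rw [mem_image] at hu
          obtain ⟨t, ht, rfl⟩ := hu
          rw [mem_filter] at ht
          exact hu1 t ht.1
        · intro u _ _
          positivity
      · intro t ht t' ht' h
        rw [mem_coe, mem_filter] at ht ht'
        exact hinj ht.1 ht'.1 h
    refine (sum_le_sum h3).trans ?_
    simp
  have h3 : ∑ t ∈ W, ‖dirPoly N a t‖^2 ≤ Real.exp 1 * ((J * B0) * Real.exp 1) := by
    refine (sum_le_sum h1).trans ?_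
    rw [← mul_sum, ← Summable.tsum_finsetSum hfs]
    apply mul_le_mul_of_nonneg_left _ (Real.exp_pos 1).le
    have h4 := hw.mul_left (J * B0)
    rw [← h4.tsum_eq]
    exact Summable.tsum_le_tsum h2 (summable_sum hfs) h4.summable
  refine h3.trans ?_
  have he := Real.exp_one_lt_d9
  have he0 := Real.exp_pos 1
  have e1 : Real.exp 1 * ((J * B0) * Real.exp 1) = (Real.exp 1)^2 * J * B0 := by ring
  rw [e1]
  have e2 : (Real.exp 1)^2 ≤ 7.4 := by nlinarith
  have e3 : c ≤ α / 6.28 := by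
    rw [hc]
    apply div_le_div_of_nonneg_left (by linarith) (by norm_num) (by linarith)
  have e4 : B0 ≤ 256 * (α / 6.28) * b * (1 + Real.log N)^2 * lam^L * (N + (s:ℝ)^L) * N := by
    rw [hB0]
    have : 0 ≤ b * (1 + Real.log N)^2 * lam^L * (N + (s:ℝ)^L) * N := by positivity
    nlinarith
  calc (Real.exp 1)^2 * J * B0 ≤ 7.4 * (1 + Real.log N) * (256 * (α / 6.28) * b * (1 + Real.log N)^2 * lam^L * (N + (s:ℝ)^L) * N) := by
        apply mul_le_mul _ e4 hB00 (by positivity)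
        exact mul_le_mul e2 hJu hJ0.le (by norm_num)
    _ = (7.4 * 256 / 6.28) * (α * b * (1 + Real.log N)^3 * lam^L * (N + (s:ℝ)^L) * N) := by ring
    _ ≤ 400 * (α * b * (1 + Real.log N)^3 * lam^L * (N + (s:ℝ)^L) * N) := by
        apply mul_le_mul_of_nonneg_right (by norm_num) (by positivity)
    _ = _ := by ring

end Pool.Agent.H31.MO
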