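import Mathlib
import Pool.Agent.H31.MO.F
import Pool.Graph.R_seed8.Y766.G7

/-!
# The zeta function at separated points near a digit set
-/

set_option autoImplicit false

open Finset

namespace Pool.Agent.H31.MO

open Pool.Agent.H31.ZD

/-- the weighted polynomial cut into dyadic pieces -/
lemma dyad {b L N s r : ℕ} {M : ℝ} (hb : 2 ≤ b) (hN : 1 ≤ N) (hL : (b:ℝ)^L ≤ M^2) (hNM : 2 * (N:ℝ) ≤ M) {D : ℕ → Finset ℕ}
    (hD : ∀ i, ∀ d ∈ D i, d < b) (hs1 : 1 ≤ s) (hs : ∀ i, (D i).card = s) (hr : ∀ i, runs (D i) ≤ r)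
    {α β : ℝ} (hα : 1 ≤ α) (W : Finset ℝ) (hsep : ∀ t ∈ W, ∀ t' ∈ W, t ≠ t' → 1 ≤ |t - t'|)
    (hnear : ∀ t ∈ W, ∃ u ∈ Dset b L D, β + α * u ≤ t ∧ t < β + α * u + 1)
    (c : ℕ → ℂ) (hc : ∀ n, ‖c n‖ ≤ 1) :
    ∑ t ∈ W, ‖∑ n ∈ Icc 1 N, c n * (((n:ℝ) ^ (-(1/2) : ℝ) : ℝ) : ℂ) * Complex.exp (((t * Real.log n : ℝ) : ℂ) * Complex.I)‖^2 ≤
      3200 * α * b * (1 + Real.log M)^5 * (r * (3 + Real.log b))^L * (M + (s:ℝ)^L) := by
  classical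
  have hN1 : (1:ℝ) ≤ N := by exact_mod_cast hN
  have hM1 : 1 ≤ M := by linarith
  have hlM : 0 ≤ Real.log M := Real.log_nonneg hM1
  have hb1 : (1:ℝ) < b := by exact_mod_cast (by omega : 1 < b)
  have hlb : 0 < Real.log b := Real.log_pos hb1
  set I := Nat.log 2 N + 1 with hI
  set a : ℕ → ℕ → ℂ := fun i n => if Nat.log 2 n = i ∧ n ≤ N ∧ 1 ≤ n then c n * (((((2:ℝ)^i) ^ (1/2 : ℝ) * (n:ℝ) ^ (-(1/2) : ℝ) : ℝ)) : ℂ) else 0 with ha
  have hmap : ∀ n ∈ Icc 1 N, Nat.log 2 n ∈ range I := by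
    intro n hn
    rw [mem_Icc] at hn
    rw [mem_range, hI]
    have := Nat.log_mono_right (b := 2) hn.2
    omega
  -- the pieces
  have hpiece : ∀ t : ℝ, ∑ n ∈ Icc 1 N, c n * (((n:ℝ) ^ (-(1/2) : ℝ) : ℝ) : ℂ) * Complex.exp (((t * Real.log n : ℝ) : ℂ) * Complex.I) =
      ∑ i ∈ range I, ((((2:ℝ)^i) ^ (-(1/2) : ℝ) : ℝ) : ℂ) * dirPoly (2^(i+1)) (a i) t := by
    intro t
    rw [← sum_fiberwise_of_maps_to hmap]
    refine sum_congr rfl fun i _ => ?_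
    unfold dirPoly
    rw [mul_sum]
    have hsub : (Icc 1 N).filter (fun n => Nat.log 2 n = i) ⊆ Icc 1 (2^(i+1)) := by
      intro n hn
      rw [mem_filter, mem_Icc] at hn
      rw [mem_Icc]
      refine ⟨hn.1.1, ?_⟩
      have := Nat.lt_pow_succ_log_self (b := 2) (by norm_num) n
      rw [hn.2] at this
      exact this.le
    rw [← sum_subset hsub]
    · refine sum_congr rfl fun n hn => ?_
      rw [mem_filter, mem_Icc] at hn
      simp only [ha]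
      rw [if_pos ⟨hn.2, hn.1.2, hn.1.1⟩]
      have h2 : ((2:ℝ)^i) ^ (-(1/2) : ℝ) * ((2:ℝ)^i) ^ (1/2 : ℝ) = 1 := by
        rw [← Real.rpow_add (by positivity)]
        norm_num
      have h3 : (((((2:ℝ)^i) ^ (-(1/2) : ℝ) : ℝ)) : ℂ) * (c n * (((((2:ℝ)^i) ^ (1/2 : ℝ) * (n:ℝ) ^ (-(1/2) : ℝ) : ℝ)) : ℂ) *
          Complex.exp (((t * Real.log n : ℝ) : ℂ) * Complex.I)) =
          (((((2:ℝ)^i) ^ (-(1/2) : ℝ) * ((2:ℝ)^i) ^ (1/2 : ℝ) : ℝ)) : ℂ) * (c n * (((n:ℝ) ^ (-(1/2) : ℝ) : ℝ) : ℂ) * Complex.exp (((t * Real.log n : ℝ) : ℂ) * Complex.I)) := by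
        push_cast
        ring
      rw [h3, h2]
      simp
    · intro n hn1 hn2
      simp only [ha]
      rw [if_neg, zero_mul, mul_zero]
      rintro ⟨h4, h5, h6⟩
      exact hn2 (mem_filter.mpr ⟨mem_Icc.mpr ⟨h6, h5⟩, h4⟩)
  have hcoef : ∀ i n, 1 ≤ n → n ≤ 2^(i+1) → ‖a i n‖ ≤ 1 := by
    intro i n hn1 _
    simp only [ha]
    split_ifs with h
    · rw [norm_mul, Complex.norm_real, Real.norm_of_nonneg (by positivity)]
      have h1 : (2:ℝ)^i ≤ n := by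
        have := Nat.pow_log_le_self 2 (by omega : n ≠ 0)
        rw [h.1] at this
        exact_mod_cast this
      have hn0 : (0:ℝ) < n := by exact_mod_cast (by omega : 0 < n)
      have h2 : ((2:ℝ)^i) ^ (1/2 : ℝ) * (n:ℝ) ^ (-(1/2) : ℝ) ≤ 1 := by
        calc ((2:ℝ)^i) ^ (1/2 : ℝ) * (n:ℝ) ^ (-(1/2) : ℝ) ≤ (n:ℝ) ^ (1/2 : ℝ) * (n:ℝ) ^ (-(1/2) : ℝ) := by
              apply mul_le_mul_of_nonneg_right _ (by positivity)
              exact Real.rpow_le_rpow (by positivity) h1 (by norm_num)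
          _ = 1 := by
            rw [← Real.rpow_add hn0]
            norm_num
      calc ‖c n‖ * _ ≤ 1 * 1 := mul_le_mul (hc n) h2 (by positivity) zero_le_one
        _ = 1 := one_mul 1
    · simp
  set X : ℝ := 400 * α * b * (1 + Real.log M)^3 * (r * (3 + Real.log b))^L * (M + (s:ℝ)^L) with hX
  have hX0 : 0 ≤ X := by rw [hX]; positivity
  have hone : ∀ i ∈ range I, ∑ t ∈ W, ‖((((2:ℝ)^i) ^ (-(1/2) : ℝ) : ℝ) : ℂ) * dirPoly (2^(i+1)) (a i) t‖^2 ≤ 2 * X := by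
    intro i hi
    rw [mem_range] at hi
    have h2i : (2:ℝ)^(i+1) ≤ M := by
      have h1 : 2^i ≤ N := (Nat.pow_le_pow_right (by norm_num) (by omega : i ≤ Nat.log 2 N)).trans
        (Nat.pow_log_le_self 2 (by omega))
      have h2 : (2:ℝ)^i ≤ N := by exact_mod_cast h1
      rw [pow_succ]; linarith
    have h2i0 : (1:ℝ) ≤ (2:ℝ)^(i+1) := one_le_pow₀ (by norm_num)
    have h1 := mainM (N := 2^(i+1)) (M := M) hb Nat.one_le_two_pow hL (by push_cast; exact h2i) hD hs1 hs hr hα W hsep hnear (a i) (hcoef i)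
    have h3 : ((2:ℝ)^i) ^ (-(1/2) : ℝ) * ((2:ℝ)^i) ^ (-(1/2) : ℝ) * (2:ℝ)^(i+1) = 2 := by
      rw [← Real.rpow_add (by positivity), pow_succ]
      norm_num
      rw [Real.rpow_neg_one]
      field_simp
    have h4 : ∑ t ∈ W, ‖((((2:ℝ)^i) ^ (-(1/2) : ℝ) : ℝ) : ℂ) * dirPoly (2^(i+1)) (a i) t‖^2 =
        (((2:ℝ)^i) ^ (-(1/2) : ℝ))^2 * ∑ t ∈ W, ‖dirPoly (2^(i+1)) (a i) t‖^2 := by
      rw [mul_sum]
      refine sum_congr rfl fun t _ => ?_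
      rw [norm_mul, mul_pow, Complex.norm_real, Real.norm_of_nonneg (by positivity)]
    rw [h4]
    have hl1 : Real.log ((2^(i+1) : ℕ) : ℝ) ≤ Real.log M := by
      apply Real.log_le_log
      · push_cast; linarith
      · push_cast; exact h2i
    have hl0 : 0 ≤ Real.log ((2^(i+1) : ℕ) : ℝ) := Real.log_nonneg (by push_cast; exact h2i0)
    have h5 : 400 * α * b * (1 + Real.log ((2^(i+1) : ℕ) : ℝ))^3 * (r * (3 + Real.log b))^L * (M + (s:ℝ)^L) * ((2^(i+1) : ℕ) : ℝ) ≤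
        X * (2:ℝ)^(i+1) := by
      rw [hX]
      push_cast at hl1 hl0 ⊢
      gcongr
    calc (((2:ℝ)^i) ^ (-(1/2) : ℝ))^2 * ∑ t ∈ W, ‖dirPoly (2^(i+1)) (a i) t‖^2
        ≤ (((2:ℝ)^i) ^ (-(1/2) : ℝ))^2 * (X * (2:ℝ)^(i+1)) := mul_le_mul_of_nonneg_left (h1.trans h5) (by positivity)
      _ = (((2:ℝ)^i) ^ (-(1/2) : ℝ) * ((2:ℝ)^i) ^ (-(1/2) : ℝ) * (2:ℝ)^(i+1)) * X := by ring
      _ = 2 * X := by rw [h3]
  have hcs : ∀ t ∈ W, ‖∑ n ∈ Icc 1 N, c n * (((n:ℝ) ^ (-(1/2) : ℝ) : ℝ) : ℂ) * Complex.exp (((t * Real.log n : ℝ) : ℂ) * Complex.I)‖^2 ≤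
      I * ∑ i ∈ range I, ‖((((2:ℝ)^i) ^ (-(1/2) : ℝ) : ℝ) : ℂ) * dirPoly (2^(i+1)) (a i) t‖^2 := by
    intro t _
    rw [hpiece t]
    have h1 := norm_sum_le (range I) (fun i => ((((2:ℝ)^i) ^ (-(1/2) : ℝ) : ℝ) : ℂ) * dirPoly (2^(i+1)) (a i) t)
    have h2 := sq_sum_le_card_mul_sum_sq (s := range I) (f := fun i => ‖((((2:ℝ)^i) ^ (-(1/2) : ℝ) : ℝ) : ℂ) * dirPoly (2^(i+1)) (a i) t‖)
    rw [card_range] at h2
    exact (pow_le_pow_left₀ (norm_nonneg _) h1 2).trans h2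
  refine (sum_le_sum hcs).trans ?_
  rw [← mul_sum, sum_comm]
  have h6 : ∑ i ∈ range I, ∑ t ∈ W, ‖((((2:ℝ)^i) ^ (-(1/2) : ℝ) : ℝ) : ℂ) * dirPoly (2^(i+1)) (a i) t‖^2 ≤ I * (2 * X) := by
    refine (sum_le_sum hone).trans ?_
    simp
  have hIM : (I:ℝ) ≤ 2 * (1 + Real.log M) := by
    have h1 : ((2^(Nat.log 2 N) : ℕ) : ℝ) ≤ N := by exact_mod_cast Nat.pow_log_le_self 2 (by omega)
    have h2 := Real.log_le_log (by positivity) (h1.trans (by linarith : (N:ℝ) ≤ M))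
    push_cast at h2
    rw [Real.log_pow] at h2
    have h3 := Real.log_two_gt_d9
    have h4 : (0:ℝ) ≤ Nat.log 2 N := Nat.cast_nonneg _
    rw [hI]
    push_cast
    nlinarith
  have hI0 : (0:ℝ) ≤ I := Nat.cast_nonneg _
  calc (I:ℝ) * _ ≤ I * (I * (2 * X)) := mul_le_mul_of_nonneg_left h6 hI0
    _ = (I:ℝ)^2 * (2 * X) := by ring
    _ ≤ (2 * (1 + Real.log M))^2 * (2 * X) := mul_le_mul_of_nonneg_right (pow_le_pow_left₀ hI0 hIM 2) (by positivity)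
    _ = _ := by rw [hX]; ring

open Pool.Agent.Y766 (gs hl g_cont afe_sq)
open Pool.Agent.H448R2.GC (cu cu_nonneg cu_le_one)

/-- the smoothed sums are polynomials of the kind treated before -/
lemma gs_norm (N k : ℕ) (c : ℝ) (t D : ℝ) :
    ‖gs N k c (hl t) D‖ = ‖∑ n ∈ Icc 1 N, ((cu k c (Real.log n - D) : ℝ) : ℂ) * (((n:ℝ) ^ (-(1/2) : ℝ) : ℝ) : ℂ) *
      Complex.exp (((t * Real.log n : ℝ) : ℂ) * Complex.I)‖ := by
  rw [← RCLike.norm_conj]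
  congr 1
  unfold gs
  rw [map_sum]
  refine sum_congr rfl fun n hn => ?_
  rw [mem_Icc] at hn
  have hn0 : (0:ℝ) < n := by exact_mod_cast hn.1
  have hnc : (n:ℂ) ≠ 0 := by exact_mod_cast hn0.ne'
  rw [map_mul, Complex.conj_ofReal, mul_assoc]
  congr 1
  have h1 : (n:ℂ) ^ (-hl t) = (((n:ℝ) ^ (-(1/2) : ℝ) : ℝ) : ℂ) * Complex.exp (((t * Real.log n : ℝ) : ℂ) * -Complex.I) := by
    unfold hl
    rw [neg_add, Complex.cpow_add _ _ hnc]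
    congr 1
    · rw [Complex.ofReal_cpow hn0.le]
      push_cast
      rfl
    · rw [Complex.cpow_def_of_ne_zero hnc]
      congr 1
      have : Complex.log (n:ℂ) = ((Real.log n : ℝ) : ℂ) := by
        rw [Complex.ofReal_log hn0.le]
        push_cast
        rfl
      rw [this]
      push_cast
      ring
  rw [h1, map_mul, Complex.conj_ofReal, ← Complex.exp_conj, map_mul, Complex.conj_ofReal, map_neg, Complex.conj_I, neg_neg]

end Pool.Agent.H31.MO
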