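import Mathlib
import Pool.Agent.H31.MO.Z

/-!
# The mean square of zeta over separated points near a digit set
-/

set_option autoImplicit false

open Finset

namespace Pool.Agent.H31.MO

open Pool.Agent.H31.ZD
open Pool.Agent.Y766 (gs hl g_cont afe_sq)
open Pool.Agent.H448R2.GC (cu cu_nonneg cu_le_one)

lemma zeta_bdd (T0 : ℝ) : ∃ K : ℝ, 0 ≤ K ∧ ∀ t : ℝ, 1 ≤ t → t ≤ T0 → ‖riemannZeta (hl t)‖^2 ≤ K := by
  have hcont : ContinuousOn (fun t : ℝ => ‖riemannZeta (hl t)‖^2) (Set.Icc 1 T0) := by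
    intro t ht
    apply ContinuousAt.continuousWithinAt
    have h1 : hl t ≠ 1 := by
      intro h
      have := congrArg Complex.im h
      unfold hl at this
      simp at this
      linarith [ht.1]
    have h2 : ContinuousAt (fun t : ℝ => hl t) t := by
      unfold hl
      fun_prop
    have h3 : ContinuousAt riemannZeta (hl t) := (differentiableAt_riemannZeta h1).continuousAt
    exact ((h3.comp h2).norm).pow 2
  obtain ⟨K, hK⟩ := (isCompact_Icc (a := (1:ℝ)) (b := T0)).exists_bound_of_continuousOn hcont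
  refine ⟨max K 0, le_max_right _ _, fun t h1 h2 => ?_⟩
  have := hK t ⟨h1, h2⟩
  rw [Real.norm_of_nonneg (by positivity)] at this
  exact this.trans (le_max_left _ _)

theorem zmain (ε A : ℝ) (hε : 0 < ε) (hA : 1 ≤ A) : ∃ C : ℝ, 0 < C ∧
    ∀ (T : ℝ) (b L s r : ℕ) (D : ℕ → Finset ℕ) (α β : ℝ) (W : Finset ℝ),
      1 ≤ T → 2 ≤ b → r * (3 + Real.log b) ≤ (b : ℝ) ^ (ε / 4) → (b:ℝ) ^ L ≤ T → 1 ≤ s →
      (∀ i, ∀ d ∈ D i, d < b) → (∀ i, (D i).card = s) → (∀ i, runs (D i) ≤ r) → 1 ≤ α → α ≤ A →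
      (∀ t ∈ W, ∀ t' ∈ W, t ≠ t' → 1 ≤ |t - t'|) →
      (∀ t ∈ W, ∃ u ∈ Dset b L D, β + α * u ≤ t ∧ t < β + α * u + 1) → (∀ t ∈ W, T ≤ t ∧ t ≤ 2 * T) →
      ∑ t ∈ W, ‖riemannZeta (hl t)‖^2 ≤ C * b * T ^ ε * (T ^ (1 / 2 : ℝ) + (s:ℝ)^L) := by
  classical
  obtain ⟨η, hη⟩ : ∃ η, η = min (ε / 16) (1 / 100) := ⟨_, rfl⟩
  have hη0 : 0 < η := by rw [hη]; exact lt_min (by positivity) (by norm_num)
  have hη1 : η ≤ 1 / 100 := by rw [hη]; exact min_le_right _ _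
  have hη2 : η ≤ ε / 16 := by rw [hη]; exact min_le_left _ _
  obtain ⟨k, C1, T0, hC1, hT0, hafe⟩ := afe_sq hη0 hη1
  obtain ⟨K, hK0, hK⟩ := zeta_bdd (2 * T0)
  obtain ⟨Q, hQ⟩ : ∃ Q, Q = 3200 * A * 6^5 * 60 * (1 + 20 / ε)^5 := ⟨_, rfl⟩
  have hQ0 : 0 < Q := by rw [hQ]; positivity
  refine ⟨K + C1 * (1 + 14 * Q), by positivity, ?_⟩
  intro T b L s r D α β W hT hb hrb hL hs1 hD hs hr hα hαA hsep hnear hWT
  have hT0' : 0 < T := by linarith
  have hb1 : (1:ℝ) < b := by exact_mod_cast (by omega : 1 < b)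
  have hb0 : (0:ℝ) < b := by linarith
  have hlb : 0 < Real.log b := Real.log_pos hb1
  have hTe : 1 ≤ T ^ ε := Real.one_le_rpow hT hε.le
  have hTh : 0 < T ^ (1 / 2 : ℝ) := by positivity
  have hsL : (0:ℝ) < (s:ℝ)^L := by
    have : (0:ℝ) < s := by exact_mod_cast (by omega : 0 < s)
    positivity
  -- the number of points
  have hcard : (W.card : ℝ) ≤ (s:ℝ)^L := by
    choose! uf hu1 hu2 hu3 using hnear
    have hinj : Set.InjOn uf (W : Set ℝ) := by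
      intro t ht t' ht' h
      rw [mem_coe] at ht ht'
      by_contra hne'
      have h1 := hsep t ht t' ht' hne'
      have h2 := hu2 t ht
      have h3 := hu3 t ht
      have h4 := hu2 t' ht'
      have h5 := hu3 t' ht'
      rw [← h] at h4 h5
      have : |t - t'| < 1 := by rw [abs_lt]; constructor <;> linarith
      linarith
    have h1 := card_le_card_of_injOn uf (fun t ht => hu1 t ht) hinj
    rw [Dset_card hb s L D hD hs] at h1
    exact_mod_cast h1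
  have hbig : (W.card : ℝ) ≤ b * T ^ ε * (T ^ (1 / 2 : ℝ) + (s:ℝ)^L) := by
    have h1 : (s:ℝ)^L ≤ T ^ (1 / 2 : ℝ) + (s:ℝ)^L := by linarith
    have h2 : (1:ℝ) ≤ b * T ^ ε := by nlinarith
    calc (W.card : ℝ) ≤ 1 * (T ^ (1 / 2 : ℝ) + (s:ℝ)^L) := by linarith
      _ ≤ _ := mul_le_mul_of_nonneg_right h2 (by positivity)
  rcases lt_or_ge T T0 with hcase | hcase
  · -- small heights
    have h1 : ∑ t ∈ W, ‖riemannZeta (hl t)‖^2 ≤ W.card * K := by
      have : ∀ t ∈ W, ‖riemannZeta (hl t)‖^2 ≤ K := fun t ht => by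
        obtain ⟨h2, h3⟩ := hWT t ht
        exact hK t (by linarith) (by linarith)
      refine (sum_le_sum this).trans ?_
      simp
    have h2 : 0 ≤ C1 * (1 + 14 * Q) * (b * T ^ ε * (T ^ (1 / 2 : ℝ) + (s:ℝ)^L)) := by positivity
    calc ∑ t ∈ W, ‖riemannZeta (hl t)‖^2 ≤ W.card * K := h1
      _ ≤ (b * T ^ ε * (T ^ (1 / 2 : ℝ) + (s:ℝ)^L)) * K := mul_le_mul_of_nonneg_right hbig hK0
      _ ≤ (b * T ^ ε * (T ^ (1 / 2 : ℝ) + (s:ℝ)^L)) * K + C1 * (1 + 14 * Q) * (b * T ^ ε * (T ^ (1 / 2 : ℝ) + (s:ℝ)^L)) := by linarith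
      _ = _ := by ring
  -- large heights
  obtain ⟨c, D1, D2, N, hc, hN, hz⟩ := hafe T hcase
  obtain ⟨M, hM⟩ : ∃ M, M = 60 * T ^ (1 / 2 + 2 * η) := ⟨_, rfl⟩
  have hTη : 1 ≤ T ^ (1 / 2 + 2 * η) := Real.one_le_rpow hT (by positivity)
  have hM1 : 60 ≤ M := by rw [hM]; linarith
  have hNM : 2 * (N:ℝ) ≤ M := by rw [hM]; linarith
  have hLM : (b:ℝ)^L ≤ M^2 := by
    have h1 : T ≤ (T ^ (1 / 2 + 2 * η))^2 := by
      rw [← Real.rpow_natCast, ← Real.rpow_mul hT0'.le]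
      have : T = T ^ (1:ℝ) := (Real.rpow_one T).symm
      conv_lhs => rw [this]
      apply Real.rpow_le_rpow_of_exponent_le hT
      push_cast
      linarith
    rw [hM, mul_pow]
    nlinarith
  obtain ⟨B1, hB1⟩ : ∃ B1, B1 = 3200 * α * b * (1 + Real.log M)^5 * (r * (3 + Real.log b))^L * (M + (s:ℝ)^L) := ⟨_, rfl⟩
  have hlM : 0 ≤ Real.log M := Real.log_nonneg (by linarith)
  have hB10 : 0 ≤ B1 := by rw [hB1]; positivity
  have hpoly : ∀ (j : ℕ) (Dd : ℝ), ∑ t ∈ W, ‖gs N j c (hl t) Dd‖^2 ≤ B1 := by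
    intro j Dd
    rcases Nat.eq_zero_or_pos N with hN0 | hN0
    · have : ∀ t ∈ W, ‖gs N j c (hl t) Dd‖^2 = 0 := by
        intro t _
        unfold gs
        rw [hN0]
        simp
      rw [sum_congr rfl this]
      simpa using hB10
    · have e : ∀ t ∈ W, ‖gs N j c (hl t) Dd‖^2 = ‖∑ n ∈ Icc 1 N, ((cu j c (Real.log n - Dd) : ℝ) : ℂ) * (((n:ℝ) ^ (-(1/2) : ℝ) : ℝ) : ℂ) *
          Complex.exp (((t * Real.log n : ℝ) : ℂ) * Complex.I)‖^2 := fun t _ => by rw [gs_norm]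
      rw [sum_congr rfl e, hB1]
      apply dyad hb hN0 hLM hNM hD hs1 hs hr hα W hsep hnear (fun n => ((cu j c (Real.log n - Dd) : ℝ) : ℂ))
      intro n
      rw [Complex.norm_real, Real.norm_of_nonneg (cu_nonneg _ _ _ hc)]
      exact cu_le_one _ _ _ hc
  have hint : ∀ t : ℝ, Continuous (fun u : ℝ => ‖gs N (k + 1) c (hl t) (D2 + u + c)‖ ^ 2 + ‖gs N (k + 1) c (hl t) (D2 + u)‖ ^ 2) := by
    intro t
    have h1 := g_cont N k c hc (hl t)
    have h2 : Continuous (fun u : ℝ => D2 + u + c) := by fun_prop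
    have h3 : Continuous (fun u : ℝ => D2 + u) := by fun_prop
    exact (((h1.comp h2).norm).pow 2).add (((h1.comp h3).norm).pow 2)
  have hI : ∑ t ∈ W, ∫ u in (-3:ℝ)..3, (‖gs N (k + 1) c (hl t) (D2 + u + c)‖ ^ 2 + ‖gs N (k + 1) c (hl t) (D2 + u)‖ ^ 2) ≤ 12 * B1 := by
    rw [← intervalIntegral.integral_finset_sum (fun t _ => (hint t).intervalIntegrable _ _)]
    have h1 : ∫ u in (-3:ℝ)..3, ∑ t ∈ W, (‖gs N (k + 1) c (hl t) (D2 + u + c)‖ ^ 2 + ‖gs N (k + 1) c (hl t) (D2 + u)‖ ^ 2) ≤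
        ∫ u in (-3:ℝ)..3, 2 * B1 := by
      apply intervalIntegral.integral_mono_on (by norm_num)
      · exact (continuous_finset_sum _ fun t _ => hint t).intervalIntegrable _ _
      · exact continuous_const.intervalIntegrable _ _
      · intro u _
        rw [sum_add_distrib]
        have a1 := hpoly (k+1) (D2 + u + c)
        have a2 := hpoly (k+1) (D2 + u)
        linarith
    refine h1.trans (le_of_eq ?_)
    rw [intervalIntegral.integral_const, smul_eq_mul]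
    ring
  have hsum : ∑ t ∈ W, ‖riemannZeta (hl t)‖^2 ≤ C1 * (W.card + 14 * B1) := by
    have h1 : ∀ t ∈ W, ‖riemannZeta (hl t)‖ ^ 2 ≤ C1 *
      (1 + ‖gs N (k + 2) c (hl t) D1‖ ^ 2 + ‖gs N (k + 2) c (hl t) D2‖ ^ 2 +
      ∫ u in (-3:ℝ)..3, (‖gs N (k + 1) c (hl t) (D2 + u + c)‖ ^ 2 +
        ‖gs N (k + 1) c (hl t) (D2 + u)‖ ^ 2)) := fun t ht => hz t (hWT t ht).1 (hWT t ht).2
    refine (sum_le_sum h1).trans ?_
    rw [← mul_sum]
    apply mul_le_mul_of_nonneg_left _ (by linarith)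
    rw [sum_add_distrib, sum_add_distrib, sum_add_distrib]
    have a1 := hpoly (k+2) D1
    have a2 := hpoly (k+2) D2
    have a3 : ∑ t ∈ W, (1:ℝ) = W.card := by simp
    rw [a3]
    linarith
  -- the size
  have hfin : B1 ≤ Q * (b * T ^ ε * (T ^ (1 / 2 : ℝ) + (s:ℝ)^L)) := by
    have hlT : 0 ≤ Real.log T := Real.log_nonneg hT
    have e1 : 1 + Real.log M ≤ 6 * (1 + Real.log T) := by
      rw [hM, Real.log_mul (by norm_num) (by positivity), Real.log_rpow hT0']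
      have h60 : Real.log 60 ≤ 5 := by
        rw [Real.log_le_iff_le_exp (by norm_num)]
        have h1 := Real.exp_one_gt_d9
        have h2 : Real.exp 5 = Real.exp 1 ^ 5 := by rw [← Real.exp_nat_mul]; norm_num
        rw [h2]
        calc (60:ℝ) ≤ 2.7^5 := by norm_num
          _ ≤ Real.exp 1 ^ 5 := pow_le_pow_left₀ (by norm_num) (by linarith) 5
      have : (1 / 2 + 2 * η) * Real.log T ≤ 6 * Real.log T := mul_le_mul_of_nonneg_right (by linarith) hlT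
      linarith
    have e2 : (1 + Real.log T)^5 ≤ (1 + 20 / ε)^5 * T ^ (ε / 4) := by
      have a0 : 1 + Real.log T ≤ (1 + 20 / ε) * T ^ (ε / 20) := by
        have a1 := Real.log_le_rpow_div hT0'.le (by positivity : 0 < ε / 20)
        have a2 : (1:ℝ) ≤ T ^ (ε / 20) := Real.one_le_rpow hT (by positivity)
        have a3 : T ^ (ε / 20) / (ε / 20) = 20 / ε * T ^ (ε / 20) := by field_simp
        rw [a3] at a1
        linarith
      calc (1 + Real.log T)^5 ≤ ((1 + 20 / ε) * T ^ (ε / 20))^5 := pow_le_pow_left₀ (by linarith) a0 5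
        _ = (1 + 20 / ε)^5 * (T ^ (ε / 20))^5 := mul_pow _ _ _
        _ = _ := by
          congr 1
          rw [← Real.rpow_natCast, ← Real.rpow_mul hT0'.le]
          congr 1
          push_cast
          ring
    have e3 : (r * (3 + Real.log b))^L ≤ T ^ (ε / 4) := by
      calc (r * (3 + Real.log b))^L ≤ ((b:ℝ)^(ε/4))^L := pow_le_pow_left₀ (by positivity) hrb L
        _ = ((b:ℝ)^L)^(ε/4) := by
          rw [← Real.rpow_natCast, ← Real.rpow_mul hb0.le, ← Real.rpow_natCast (b:ℝ) L, ← Real.rpow_mul hb0.le, mul_comm]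
        _ ≤ T ^ (ε / 4) := Real.rpow_le_rpow (by positivity) hL (by positivity)
    have e4 : M + (s:ℝ)^L ≤ 60 * T ^ (ε / 8) * (T ^ (1 / 2 : ℝ) + (s:ℝ)^L) := by
      have a1 : T ^ (1 / 2 + 2 * η) ≤ T ^ (ε / 8) * T ^ (1 / 2 : ℝ) := by
        rw [← Real.rpow_add hT0']
        apply Real.rpow_le_rpow_of_exponent_le hT
        linarith
      have a2 : (1:ℝ) ≤ T ^ (ε / 8) := Real.one_le_rpow hT (by positivity)
      rw [hM]
      have a3 : (s:ℝ)^L ≤ 60 * T ^ (ε / 8) * (s:ℝ)^L := by nlinarith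
      nlinarith
    have e5 : T ^ (ε / 4) * T ^ (ε / 4) * T ^ (ε / 8) ≤ T ^ ε := by
      rw [← Real.rpow_add hT0', ← Real.rpow_add hT0']
      apply Real.rpow_le_rpow_of_exponent_le hT
      linarith
    have e6 : (1 + Real.log M)^5 ≤ 6^5 * ((1 + 20 / ε)^5 * T ^ (ε / 4)) := by
      calc (1 + Real.log M)^5 ≤ (6 * (1 + Real.log T))^5 := pow_le_pow_left₀ (by linarith) e1 5
        _ = 6^5 * (1 + Real.log T)^5 := mul_pow _ _ _
        _ ≤ _ := mul_le_mul_of_nonneg_left e2 (by positivity)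
    have hr0 : (0:ℝ) ≤ r * (3 + Real.log b) := by positivity
    calc B1 = 3200 * α * b * (1 + Real.log M)^5 * (r * (3 + Real.log b))^L * (M + (s:ℝ)^L) := hB1
      _ ≤ 3200 * A * b * (6^5 * ((1 + 20 / ε)^5 * T ^ (ε / 4))) * T ^ (ε / 4) * (60 * T ^ (ε / 8) * (T ^ (1 / 2 : ℝ) + (s:ℝ)^L)) := by
          gcongr
      _ = Q * b * (T ^ (1 / 2 : ℝ) + (s:ℝ)^L) * (T ^ (ε / 4) * T ^ (ε / 4) * T ^ (ε / 8)) := by rw [hQ]; ring
      _ ≤ Q * b * (T ^ (1 / 2 : ℝ) + (s:ℝ)^L) * T ^ ε := mul_le_mul_of_nonneg_left e5 (by positivity)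
      _ = _ := by ring
  have hV : 0 ≤ b * T ^ ε * (T ^ (1 / 2 : ℝ) + (s:ℝ)^L) := by positivity
  calc ∑ t ∈ W, ‖riemannZeta (hl t)‖^2 ≤ C1 * (W.card + 14 * B1) := hsum
    _ ≤ C1 * (b * T ^ ε * (T ^ (1 / 2 : ℝ) + (s:ℝ)^L) + 14 * (Q * (b * T ^ ε * (T ^ (1 / 2 : ℝ) + (s:ℝ)^L)))) := by
        apply mul_le_mul_of_nonneg_left _ (by linarith)
        linarith
    _ ≤ (K + C1 * (1 + 14 * Q)) * (b * T ^ ε * (T ^ (1 / 2 : ℝ) + (s:ℝ)^L)) := by
        have : 0 ≤ K * (b * T ^ ε * (T ^ (1 / 2 : ℝ) + (s:ℝ)^L)) := mul_nonneg hK0 hV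
        nlinarith
    _ = _ := by ring

end Pool.Agent.H31.MO
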